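import Mathlib

set_option autoImplicit false

/-!
# A q-analogue of Liu's supercongruence for `n ≡ 1 (mod 4)`

For all `m ≥ 1` and `n > 1`, `n ≡ 1 (mod 4)`:
`∑_{k=0}^{mn-1} a_k(q) ≡ R_n(q) ∑_{k=0}^{m-1} c_k (mod Φ_n(q)^2)`.

## Proof

Write `n = 2N+1`, `N` even, `q = ζ(1+ε)` with `ε^2 = 0` and `ζ` a primitive `n`-th root of unity: the
kernel of evaluation at this dual number is generated by `Φ_n^2`. Then `q^n = 1 + e`, `e = nε`.

* Block `m = 1`: with the extra parameter `b = q^{4N+4}` the sum is a terminating q-Dixon sum, which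
  equals `R_n(q)` exactly; modulo `e^2` the extra parameter disappears.
* Block `r`: `∑_{s<n} a_{rn+s} = q^{rn}/(1+q) · U_{rn}^3 · C(x)/g(x)^3` with `x = q^{4rn} = 1 + 4re`,
  where `C` satisfies the exact reflection `C(x') = (-1)^N (x' q^n)^{3N+1} C(x)` for `x x' q^{2n} = 1`.
  Linearising, `C(x) = (1 + 2r(3N+1)e) C(1)`; and `U_{rn} q^{rn^2} g(1) = ((1/2)_r/r!) g(x)`.
  The factors combine to `c_r` times block `0`.
-/

open Polynomial TrivSqZeroExt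

namespace Pool.Agent.H25.LiuQ

/-! ## The objects of the problem -/

/-- `a_k(q) = q^k (1+q^{4k+1})/(1+q) ∏_{j<k} ((1-q^{4j+2})/(1-q^{4j+4}))^3`, an element of `ℚ(q)`. -/
noncomputable def a (k : ℕ) : RatFunc ℚ :=
  RatFunc.X ^ k * ((1 + RatFunc.X ^ (4 * k + 1)) / (1 + RatFunc.X)) *
    ∏ j ∈ Finset.range k, ((1 - RatFunc.X ^ (4 * j + 2)) / (1 - RatFunc.X ^ (4 * j + 4))) ^ 3

/-- `R_n(q) = q^{(1-n)/2} [n]_{q^2} ∏_{j=0}^{(n-3)/2} (1-q^{4j+3})/(1-q^{4j+5})` for odd `n`,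
an element of `ℚ(q)`; here `[n]_{q^2} = 1 + q^2 + ... + q^{2(n-1)}`. -/
noncomputable def R (n : ℕ) : RatFunc ℚ :=
  (RatFunc.X : RatFunc ℚ) ^ ((1 - (n : ℤ)) / 2) * (∑ i ∈ Finset.range n, RatFunc.X ^ (2 * i)) *
    ∏ j ∈ Finset.range ((n - 1) / 2), ((1 - RatFunc.X ^ (4 * j + 3)) / (1 - RatFunc.X ^ (4 * j + 5)))

/-- `c_k = (1/2)_k^3 / k!^3`, with `(x)_k = x(x+1)...(x+k-1)`. -/
def c (k : ℕ) : ℚ := (∏ j ∈ Finset.range k, ((1 : ℚ) / 2 + j)) ^ 3 / (k.factorial : ℚ) ^ 3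

/-- Congruence of rational functions modulo `Φ_n(q)^2`: `A ≡ B` means that `A - B = P/Q` with
`P, Q ∈ ℚ[q]`, `Q` coprime to `Φ_n(q)` and `Φ_n(q)^2` dividing `P`. -/
def CongrPhiSq (n : ℕ) (A B : RatFunc ℚ) : Prop :=
  ∃ P Q : ℚ[X], IsCoprime Q (cyclotomic n ℚ) ∧ (cyclotomic n ℚ) ^ 2 ∣ P ∧
    A - B = algebraMap ℚ[X] (RatFunc ℚ) P / algebraMap ℚ[X] (RatFunc ℚ) Q

/-! ## Evaluation at a dual number -/


abbrev D := DualNumber ℂ

/-- the dual number ζ(1+ε) -/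
noncomputable def qd (ζ : ℂ) : D := inl ζ + inr ζ

theorem fst_aeval (ζ : ℂ) (P : ℚ[X]) : (aeval (qd ζ) P).fst = aeval ζ P := by
  have : (fstHom ℚ ℂ ℂ) (aeval (qd ζ) P) = aeval ((fstHom ℚ ℂ ℂ) (qd ζ)) P := by
    rw [Polynomial.aeval_algHom_apply]
  simpa [qd] using this

theorem qd_pow (ζ : ℂ) (k : ℕ) : (qd ζ) ^ k = inl (ζ ^ k) + inr (k * ζ ^ k) := by
  induction k with
  | zero => simp
  | succ k ih =>
    rw [pow_succ, ih]
    apply TrivSqZeroExt.ext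
    · simp [qd, pow_succ]
    · simp [qd, pow_succ]
      ring

def Rep (ζ : ℂ) (A : RatFunc ℚ) (d : D) : Prop :=
  ∃ P Q : ℚ[X], aeval ζ Q ≠ 0 ∧ A = algebraMap ℚ[X] (RatFunc ℚ) P / algebraMap ℚ[X] (RatFunc ℚ) Q ∧
    aeval (qd ζ) P = d * aeval (qd ζ) Q

theorem isUnit_of_fst {d : D} (h : d.fst ≠ 0) : IsUnit d := by
  rw [isUnit_iff_isUnit_fst]
  exact isUnit_iff_ne_zero.mpr h

theorem map_ne_zero_of {ζ : ℂ} {Q : ℚ[X]} (h : aeval ζ Q ≠ 0) : algebraMap ℚ[X] (RatFunc ℚ) Q ≠ 0 := by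
  intro h0
  apply h
  have : Q = 0 := by
    apply (RatFunc.algebraMap_injective ℚ)
    simpa using h0
  rw [this]; simp

theorem Rep.add {ζ : ℂ} {A B : RatFunc ℚ} {a b : D} (ha : Rep ζ A a) (hb : Rep ζ B b) :
    Rep ζ (A + B) (a + b) := by
  obtain ⟨P, Q, hQ, hA, h1⟩ := ha
  obtain ⟨P', Q', hQ', hB, h2⟩ := hb
  refine ⟨P * Q' + Q * P', Q * Q', by simp [hQ, hQ'], ?_, ?_⟩
  · rw [hA, hB, div_add_div _ _ (map_ne_zero_of hQ) (map_ne_zero_of hQ')]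
    simp
  · simp only [map_add, map_mul, h1, h2]
    ring

theorem Rep.mul {ζ : ℂ} {A B : RatFunc ℚ} {a b : D} (ha : Rep ζ A a) (hb : Rep ζ B b) :
    Rep ζ (A * B) (a * b) := by
  obtain ⟨P, Q, hQ, hA, h1⟩ := ha
  obtain ⟨P', Q', hQ', hB, h2⟩ := hb
  refine ⟨P * P', Q * Q', by simp [hQ, hQ'], ?_, ?_⟩
  · rw [hA, hB, div_mul_div_comm]
    simp
  · simp only [map_mul, h1, h2]
    ring

theorem Rep.neg {ζ : ℂ} {A : RatFunc ℚ} {a : D} (ha : Rep ζ A a) :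
    Rep ζ (-A) (-a) := by
  obtain ⟨P, Q, hQ, hA, h1⟩ := ha
  refine ⟨-P, Q, hQ, ?_, ?_⟩
  · rw [hA, map_neg, neg_div]
  · rw [map_neg, h1]; ring

theorem Rep.sub {ζ : ℂ} {A B : RatFunc ℚ} {a b : D} (ha : Rep ζ A a) (hb : Rep ζ B b) :
    Rep ζ (A - B) (a - b) := by
  rw [sub_eq_add_neg, sub_eq_add_neg]
  exact ha.add hb.neg

theorem Rep.poly {ζ : ℂ} (P : ℚ[X]) : Rep ζ (algebraMap ℚ[X] (RatFunc ℚ) P) (aeval (qd ζ) P) :=
  ⟨P, 1, by simp, by simp, by simp⟩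

theorem Rep.X {ζ : ℂ} : Rep ζ (RatFunc.X) (qd ζ) := by
  have := Rep.poly (ζ := ζ) (Polynomial.X)
  simpa using this

theorem Rep.const {ζ : ℂ} (c : ℚ) : Rep ζ (algebraMap ℚ (RatFunc ℚ) c) (algebraMap ℚ D c) := by
  have := Rep.poly (ζ := ζ) (Polynomial.C c)
  simpa using this

theorem Rep.one {ζ : ℂ} : Rep ζ 1 1 := by
  have := Rep.poly (ζ := ζ) 1
  simpa using this

theorem Rep.zero {ζ : ℂ} : Rep ζ 0 0 := by
  have := Rep.poly (ζ := ζ) 0
  simpa using this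

theorem Rep.pow {ζ : ℂ} {A : RatFunc ℚ} {a : D} (ha : Rep ζ A a) (k : ℕ) : Rep ζ (A ^ k) (a ^ k) := by
  induction k with
  | zero => simpa using Rep.one
  | succ k ih => rw [pow_succ, pow_succ]; exact ih.mul ha

theorem Rep.sum {ζ : ℂ} {ι : Type*} (s : Finset ι) (A : ι → RatFunc ℚ) (a : ι → D)
    (h : ∀ i ∈ s, Rep ζ (A i) (a i)) : Rep ζ (∑ i ∈ s, A i) (∑ i ∈ s, a i) := by
  classical
  induction s using Finset.induction_on with
  | empty => simpa using Rep.zero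
  | insert i s hi ih =>
    rw [Finset.sum_insert hi, Finset.sum_insert hi]
    exact (h i (Finset.mem_insert_self i s)).add (ih (fun j hj => h j (Finset.mem_insert_of_mem hj)))

theorem Rep.prod {ζ : ℂ} {ι : Type*} (s : Finset ι) (A : ι → RatFunc ℚ) (a : ι → D)
    (h : ∀ i ∈ s, Rep ζ (A i) (a i)) : Rep ζ (∏ i ∈ s, A i) (∏ i ∈ s, a i) := by
  classical
  induction s using Finset.induction_on with
  | empty => simpa using Rep.one
  | insert i s hi ih =>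
    rw [Finset.prod_insert hi, Finset.prod_insert hi]
    exact (h i (Finset.mem_insert_self i s)).mul (ih (fun j hj => h j (Finset.mem_insert_of_mem hj)))

theorem Rep.inv {ζ : ℂ} {A : RatFunc ℚ} {a : D} (ha : Rep ζ A a) (h : a.fst ≠ 0) : Rep ζ A⁻¹ a⁻¹ := by
  obtain ⟨P, Q, hQ, hA, h1⟩ := ha
  have hP : aeval ζ P ≠ 0 := by
    rw [← fst_aeval, h1, fst_mul, fst_aeval]
    exact mul_ne_zero h hQ
  refine ⟨Q, P, hP, ?_, ?_⟩
  · rw [hA, inv_div]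
  · rw [h1, ← mul_assoc, TrivSqZeroExt.inv_mul_cancel h, one_mul]

theorem Rep.div {ζ : ℂ} {A B : RatFunc ℚ} {a b : D} (ha : Rep ζ A a) (hb : Rep ζ B b) (h : b.fst ≠ 0) :
    Rep ζ (A / B) (a * b⁻¹) := by
  rw [div_eq_mul_inv]
  exact ha.mul (hb.inv h)

theorem dvd_of_aeval_eq_zero {n : ℕ} {ζ : ℂ} (hn : 0 < n) (hζ : IsPrimitiveRoot ζ n) {P : ℚ[X]}
    (h : aeval ζ P = 0) : cyclotomic n ℚ ∣ P := by
  rw [cyclotomic_eq_minpoly_rat hζ hn]
  exact minpoly.dvd ℚ ζ h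

theorem sq_dvd_of_aeval_eq_zero {n : ℕ} {ζ : ℂ} (hn : 0 < n) (hζ : IsPrimitiveRoot ζ n) {P : ℚ[X]}
    (h : aeval (qd ζ) P = 0) : (cyclotomic n ℚ) ^ 2 ∣ P := by
  have h0 : aeval ζ P = 0 := by
    rw [← fst_aeval, h]; simp
  obtain ⟨S, hS⟩ := dvd_of_aeval_eq_zero hn hζ h0
  have hc0 : aeval ζ (cyclotomic n ℚ) = 0 := by
    rw [cyclotomic_eq_minpoly_rat hζ hn]
    exact minpoly.aeval ℚ ζ
  have hc : (aeval (qd ζ) (cyclotomic n ℚ)).snd ≠ 0 := by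
    intro hc
    have hz : aeval (qd ζ) (cyclotomic n ℚ) = 0 := by
      apply TrivSqZeroExt.ext
      · rw [fst_aeval, hc0]; simp
      · rw [hc]; simp
    obtain ⟨R, hR⟩ := cyclotomic.dvd_X_pow_sub_one n ℚ
    have : aeval (qd ζ) ((X : ℚ[X]) ^ n - 1) = 0 := by
      rw [hR, map_mul, hz, zero_mul]
    rw [map_sub, map_pow, aeval_X, map_one, qd_pow] at this
    have h2 := congrArg TrivSqZeroExt.snd this
    simp [hζ.pow_eq_one] at h2
    omega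
  rw [hS, map_mul] at h
  have h2 := congrArg TrivSqZeroExt.snd h
  rw [DualNumber.snd_mul, fst_aeval, hc0, zero_mul, zero_add] at h2
  simp only [snd_zero] at h2
  rw [fst_aeval] at h2
  have h3 : aeval ζ S = 0 := by
    rcases mul_eq_zero.mp h2 with h2 | h2
    · exact absurd h2 hc
    · exact h2
  obtain ⟨T, hT⟩ := dvd_of_aeval_eq_zero hn hζ h3
  exact ⟨T, by rw [hS, hT]; ring⟩

theorem Rep.congr {n : ℕ} {ζ : ℂ} (hn : 0 < n) (hζ : IsPrimitiveRoot ζ n) {A B : RatFunc ℚ} {d : D}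
    (ha : Rep ζ A d) (hb : Rep ζ B d) : CongrPhiSq n A B := by
  have h := ha.sub hb
  rw [sub_self] at h
  obtain ⟨P, Q, hQ, hA, h1⟩ := h
  refine ⟨P, Q, ?_, ?_, hA⟩
  · have hirr : Irreducible (cyclotomic n ℚ) := cyclotomic.irreducible_rat hn
    rw [isCoprime_comm]
    rw [hirr.coprime_iff_not_dvd]
    intro hd
    obtain ⟨R, hR⟩ := hd
    apply hQ
    rw [hR, map_mul]
    have hc0 : aeval ζ (cyclotomic n ℚ) = 0 := by
      rw [cyclotomic_eq_minpoly_rat hζ hn]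
      exact minpoly.aeval ℚ ζ
    rw [hc0, zero_mul]
  · apply sq_dvd_of_aeval_eq_zero hn hζ
    rw [h1, zero_mul]

/-- product of the k-dependent part -/
def PP {L : Type*} [Field L] (α p b : L) (k : ℕ) : L :=
  ∏ j ∈ Finset.range k, ((1 - α ^ 2 * p ^ (j + 1)) * (1 - b * p ^ (j + 1)) /
            ((1 - p ^ (j + 1)) * (b - α ^ 2 * p ^ (j + 1))))

/-- the summand t(N,k) of the q-Dixon sum -/
def tt {L : Type*} [Field L] (α p b : L) (N k : ℕ) : L :=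
  (1 + α * p ^ k) / (1 + α) *
          ((∏ j ∈ Finset.range k, ((1 - α ^ 2 * p ^ j) * (1 - b * p ^ j) /
            ((1 - p ^ (j + 1)) * (b - α ^ 2 * p ^ (j + 1))))) * (α * p) ^ k) *
          ((∏ j ∈ Finset.range k, (p ^ N - p ^ j)) /
            (∏ j ∈ Finset.range k, (1 - α ^ 2 * p ^ (N + 1 + j))))

/-- the right-hand side -/
def RR {L : Type*} [Field L] (α p b : L) (N : ℕ) : L :=
  ∏ j ∈ Finset.range N, ((1 - α ^ 2 * p ^ (j + 1)) * (b - α * p ^ (j + 1)) /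
    ((b - α ^ 2 * p ^ (j + 1)) * (1 - α * p ^ (j + 1))))

theorem key {L : Type*} [Field L] (α p b X Y Z E PP Hh : L)
    (hH0 : Hh ≠ 0)
    (e1 : 1 - α ^ 2 * (X * p) ≠ 0)
    (e2 : b - α * (X * p) ≠ 0)
    (e3 : 1 - Y * p ≠ 0)
    (e4 : b - α ^ 2 * (Y * p) ≠ 0)
    (h4 : 1 + α ≠ 0)
    (hHM : 1 - α ^ 2 * (X * Y * p) ≠ 0)
    (hHM1 : 1 - α ^ 2 * (X * Y * p ^ 2) ≠ 0) :
  α * (X * p) * (α - 1) * (b - 1) / (b - α * (X * p)) * PP * Z * (E / (Hh * (1 - α ^ 2 * (X * Y * p)))) +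
   ((b - α ^ 2 * (X * p)) * (1 - α * (X * p)) /
          ((1 - α ^ 2 * (X * p)) * (b - α * (X * p))) *
        ((1 + α * (Y * p)) / (1 + α) *
          (((1 - α ^ 2) * (1 - b) * PP / ((1 - Y * p) * (b - α ^ 2 * (Y * p)))) * (Z * (α * p))) *
          (((X * p - 1) * Y * E) /
            (Hh * (1 - α ^ 2 * (X * Y * p)) * (1 - α ^ 2 * (X * Y * p ^ 2)) / (1 - α ^ 2 * (X * p))))) -
        ((1 + α * (Y * p)) / (1 + α) *
          (((1 - α ^ 2) * (1 - b) * PP / ((1 - Y * p) * (b - α ^ 2 * (Y * p)))) * (Z * (α * p))) *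
          ((E * (X - Y)) / (Hh * (1 - α ^ 2 * (X * Y * p)))))) =
  α * (X * p) * (α - 1) * (b - 1) / (b - α * (X * p)) * (PP * ((1 - α ^ 2 * (Y * p)) * (1 - b * (Y * p)) /
            ((1 - Y * p) * (b - α ^ 2 * (Y * p))))) * (Z * (α * p)) *
    (E * (X - Y) / (Hh * (1 - α ^ 2 * (X * Y * p)) * (1 - α ^ 2 * (X * Y * p ^ 2)))) := by
  have e1' : 1 - α ^ 2 * X * p ≠ 0 := by convert e1 using 1; ring
  have e2' : b - α * X * p ≠ 0 := by convert e2 using 1; ring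
  have e3' : 1 - p * Y ≠ 0 := by convert e3 using 1; ring
  have e4' : b - α ^ 2 * p * Y ≠ 0 := by convert e4 using 1; ring
  have hHM' : 1 - α ^ 2 * X * p * Y ≠ 0 := by convert hHM using 1; ring
  have hHM1' : 1 - α ^ 2 * X * p ^ 2 * Y ≠ 0 := by convert hHM1 using 1; ring
  field_simp
  ring

theorem wz_sum {L : Type*} [Field L] (α p b : L) (N : ℕ)
    (h1 : ∀ j : ℕ, 1 - p ^ (j + 1) ≠ 0)
    (h2 : ∀ j : ℕ, b - α ^ 2 * p ^ (j + 1) ≠ 0)
    (h3 : ∀ j : ℕ, 1 - α ^ 2 * p ^ (j + 1) ≠ 0)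
    (h4 : 1 + α ≠ 0)
    (h5 : ∀ j : ℕ, b - α * p ^ (j + 1) ≠ 0)
    (M : ℕ) :
    ∑ k ∈ Finset.range (M + 1),
      ((b - α ^ 2 * p ^ (N + 1)) * (1 - α * p ^ (N + 1)) /
          ((1 - α ^ 2 * p ^ (N + 1)) * (b - α * p ^ (N + 1))) * tt α p b (N + 1) k - tt α p b N k) =
      α * p ^ (N + 1) * (α - 1) * (b - 1) / (b - α * p ^ (N + 1)) * PP α p b M * (α * p) ^ M *
        ((∏ j ∈ Finset.range M, (p ^ N - p ^ j)) /
          (∏ j ∈ Finset.range (M + 1), (1 - α ^ 2 * p ^ (N + 1 + j)))) := by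
  induction M with
  | zero =>
    have e1 := h3 N
    have e2 := h5 N
    simp [tt, PP]
    field_simp
    ring
  | succ M ih =>
    rw [Finset.sum_range_succ, ih]
    -- rewrite products
    have hE1 : ∏ j ∈ Finset.range (M + 1), (p ^ (N + 1) - p ^ j) =
        (p ^ (N + 1) - 1) * p ^ M * ∏ j ∈ Finset.range M, (p ^ N - p ^ j) := by
      rw [Finset.prod_range_succ']
      have : ∀ j ∈ Finset.range M, p ^ (N + 1) - p ^ (j + 1) = p * (p ^ N - p ^ j) := by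
        intro j _; ring
      rw [Finset.prod_congr rfl this, Finset.prod_mul_distrib]
      simp
      ring
    have hH1 : (∏ j ∈ Finset.range (M + 1), (1 - α ^ 2 * p ^ (N + 1 + 1 + j))) =
        (∏ j ∈ Finset.range M, (1 - α ^ 2 * p ^ (N + 1 + j))) * (1 - α ^ 2 * p ^ (N + 1 + M)) *
          (1 - α ^ 2 * p ^ (N + 1 + (M + 1))) / (1 - α ^ 2 * p ^ (N + 1)) := by
      rw [eq_div_iff (h3 N), ← Finset.prod_range_succ, ← Finset.prod_range_succ,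
        Finset.prod_range_succ' _ (M + 1)]
      have : ∀ j ∈ Finset.range (M + 1), 1 - α ^ 2 * p ^ (N + 1 + 1 + j) =
          1 - α ^ 2 * p ^ (N + 1 + (j + 1)) := by
        intro j _
        congr 3
        ring
      rw [Finset.prod_congr rfl this]
    have hP1 : ∏ j ∈ Finset.range (M + 1), ((1 - α ^ 2 * p ^ j) * (1 - b * p ^ j) /
            ((1 - p ^ (j + 1)) * (b - α ^ 2 * p ^ (j + 1)))) =
        (1 - α ^ 2) * (1 - b) * PP α p b M /
            ((1 - p ^ (M + 1)) * (b - α ^ 2 * p ^ (M + 1))) := by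
      unfold PP
      rw [Finset.prod_div_distrib, Finset.prod_div_distrib, Finset.prod_range_succ', Finset.prod_range_succ]
      simp only [pow_zero, mul_one]
      rw [mul_comm ((1 - α ^ 2) * (1 - b)), div_mul_eq_mul_div, div_div]
    have hPs : PP α p b (M + 1) = PP α p b M * ((1 - α ^ 2 * p ^ (M + 1)) * (1 - b * p ^ (M + 1)) /
            ((1 - p ^ (M + 1)) * (b - α ^ 2 * p ^ (M + 1)))) := by
      unfold PP
      rw [Finset.prod_range_succ]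
    have hH0 : (∏ j ∈ Finset.range M, (1 - α ^ 2 * p ^ (N + 1 + j))) ≠ 0 := by
      rw [Finset.prod_ne_zero_iff]
      intro j _
      have := h3 (N + j)
      rw [show N + 1 + j = N + j + 1 by ring]
      exact this
    have hHM : 1 - α ^ 2 * p ^ (N + 1 + M) ≠ 0 := by
      have := h3 (N + M)
      rw [show N + 1 + M = N + M + 1 by ring]
      exact this
    have hHM1 : 1 - α ^ 2 * p ^ (N + 1 + (M + 1)) ≠ 0 := by
      have := h3 (N + M + 1)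
      rw [show N + 1 + (M + 1) = N + M + 1 + 1 by ring]
      exact this
    unfold tt
    rw [hE1, hH1, hP1, hPs]
    rw [Finset.prod_range_succ (fun j => p ^ N - p ^ j) M,
      Finset.prod_range_succ (fun j => 1 - α ^ 2 * p ^ (N + 1 + j)) (M + 1),
      Finset.prod_range_succ (fun j => 1 - α ^ 2 * p ^ (N + 1 + j)) M]
    have e1 := h3 N
    have e2 := h5 N
    have e3 := h1 M
    have e4 := h2 M
    generalize (∏ j ∈ Finset.range M, (1 - α ^ 2 * p ^ (N + 1 + j))) = Hh at *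
    generalize (∏ j ∈ Finset.range M, (p ^ N - p ^ j)) = E at *
    generalize PP α p b M = P1 at *
    clear ih hE1 hH1 hP1 hPs
    rw [show p ^ (N + 1 + (M + 1)) = p ^ N * p ^ M * p ^ 2 by ring] at *
    rw [show p ^ (N + 1 + M) = p ^ N * p ^ M * p by ring] at *
    rw [show p ^ (N + 1) = p ^ N * p by ring] at *
    rw [show p ^ (M + 1) = p ^ M * p by ring] at *
    rw [show (α * p) ^ (M + 1) = (α * p) ^ M * (α * p) by ring] at *
    exact key α p b (p ^ N) (p ^ M) ((α * p) ^ M) E P1 Hh hH0 e1 e2 e3 e4 h4 hHM hHM1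

theorem tt_zero {L : Type*} [Field L] (α p b : L) (N k : ℕ) (h : N < k) : tt α p b N k = 0 := by
  unfold tt
  have : ∏ j ∈ Finset.range k, (p ^ N - p ^ j) = 0 := by
    apply Finset.prod_eq_zero (Finset.mem_range.mpr h)
    simp
  rw [this]
  simp

/-- Terminating q-Dixon sum -/
theorem qdixon {L : Type*} [Field L] (α p b : L)
    (h1 : ∀ j : ℕ, 1 - p ^ (j + 1) ≠ 0)
    (h2 : ∀ j : ℕ, b - α ^ 2 * p ^ (j + 1) ≠ 0)
    (h3 : ∀ j : ℕ, 1 - α ^ 2 * p ^ (j + 1) ≠ 0)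
    (h4 : 1 + α ≠ 0)
    (h5 : ∀ j : ℕ, b - α * p ^ (j + 1) ≠ 0)
    (h6 : ∀ j : ℕ, 1 - α * p ^ (j + 1) ≠ 0)
    (N : ℕ) :
    ∑ k ∈ Finset.range (N + 1), tt α p b N k = RR α p b N := by
  induction N with
  | zero =>
    simp [tt, RR, h4]
  | succ N ih =>
    have hw := wz_sum α p b N h1 h2 h3 h4 h5 (N + 1)
    have hz : ∏ j ∈ Finset.range (N + 1), (p ^ N - p ^ j) = 0 := by
      apply Finset.prod_eq_zero (Finset.mem_range.mpr (Nat.lt_succ_self N))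
      simp
    rw [hz, zero_div, mul_zero, Finset.sum_sub_distrib, ← Finset.mul_sum, sub_eq_zero] at hw
    rw [Finset.sum_range_succ (fun k => tt α p b N k) (N + 1), ih, tt_zero α p b N (N + 1) (Nat.lt_succ_self N), add_zero] at hw
    have hr : RR α p b (N + 1) = RR α p b N * ((1 - α ^ 2 * p ^ (N + 1)) * (b - α * p ^ (N + 1)) /
      ((b - α ^ 2 * p ^ (N + 1)) * (1 - α * p ^ (N + 1)))) := by
      unfold RR
      rw [Finset.prod_range_succ]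
    rw [hr, ← hw]
    have e1 := h3 N
    have e2 := h5 N
    have e3 := h2 N
    have e4 := h6 N
    field_simp

section ring
variable {S : Type*} [CommRing S]

theorem one_add_pow {e : S} (he : e ^ 2 = 0) (k : ℕ) : (1 + e) ^ k = 1 + k * e := by
  induction k with
  | zero => simp
  | succ k ih =>
    rw [pow_succ, ih]
    push_cast
    linear_combination (k : S) * he

def ff (q : S) (s : ℕ) (x : S) : S := ∏ j ∈ Finset.range s, (1 - x * q ^ (4 * j + 2))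
def gg (q : S) (s : ℕ) (x : S) : S := ∏ j ∈ Finset.range s, (1 - x * q ^ (4 * j + 4))
def hh (q : S) (N s : ℕ) (x : S) : S := ∏ j ∈ Finset.range (N - s), (1 - x * q ^ (4 * (s + 1 + j)))
def CC (q : S) (N : ℕ) (x : S) : S :=
  ∑ s ∈ Finset.range (N + 1), q ^ s * (1 + x * q ^ (4 * s + 1)) * (ff q s x) ^ 3 * (hh q N s x) ^ 3

theorem gg_split (q : S) (N s : ℕ) (h : s ≤ N) (x : S) : gg q N x = gg q s x * hh q N s x := by
  unfold gg hh
  obtain ⟨m, rfl⟩ := Nat.exists_eq_add_of_le h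
  rw [Finset.prod_range_add]
  congr 1
  rw [Nat.add_sub_cancel_left]
  apply Finset.prod_congr rfl
  intro j _
  congr 3
  ring

theorem ff_reflect (q : S) (N s : ℕ) (h : s ≤ N) (x x' : S) (hx : x * x' * q ^ (2 * (2 * N + 1)) = 1) :
    ff q (N - s) x' = (-x') ^ (N - s) * q ^ (2 * (N - s) ^ 2) * hh q N s x := by
  unfold ff hh
  rw [← Finset.prod_range_reflect (fun j => 1 - x * q ^ (4 * (s + 1 + j)))]
  have h1 : ∀ m : ℕ, (-x') ^ m * q ^ (2 * m ^ 2) = ∏ j ∈ Finset.range m, (-x' * q ^ (4 * j + 2)) := by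
    intro m
    induction m with
    | zero => simp
    | succ m ih =>
      rw [Finset.prod_range_succ, ← ih]
      ring
  rw [h1, ← Finset.prod_mul_distrib]
  apply Finset.prod_congr rfl
  intro j hj
  have hj' := Finset.mem_range.mp hj
  have e1 : 4 * (s + 1 + (N - s - 1 - j)) = 4 * (N - j) := by omega
  rw [e1]
  have e2 : q ^ (4 * j + 2) * q ^ (4 * (N - j)) = q ^ (2 * (2 * N + 1)) := by
    rw [← pow_add]
    congr 1
    omega
  linear_combination (-1 : S) * hx - x * x' * e2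

theorem hh_reflect (q : S) (N s : ℕ) (h : s ≤ N) (x x' : S) (hx : x * x' * q ^ (2 * (2 * N + 1)) = 1) :
    hh q N (N - s) x' = (-x') ^ s * q ^ (4 * s * (N - s) + 2 * s ^ 2 + 2 * s) * ff q s x := by
  unfold ff hh
  rw [← Finset.prod_range_reflect (fun j => 1 - x * q ^ (4 * j + 2))]
  have h1 : ∀ m k : ℕ, (-x') ^ m * q ^ (4 * m * k + 2 * m ^ 2 + 2 * m) =
      ∏ j ∈ Finset.range m, (-x' * q ^ (4 * (k + 1 + j))) := by
    intro m k
    induction m with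
    | zero => simp
    | succ m ih =>
      rw [Finset.prod_range_succ, ← ih]
      ring
  rw [h1, ← Finset.prod_mul_distrib]
  have e0 : N - (N - s) = s := by omega
  rw [e0]
  apply Finset.prod_congr rfl
  intro j hj
  have hj' := Finset.mem_range.mp hj
  have e2 : q ^ (4 * (N - s + 1 + j)) * q ^ (4 * (s - 1 - j) + 2) = q ^ (2 * (2 * N + 1)) := by
    rw [← pow_add]
    congr 1
    omega
  linear_combination (-1 : S) * hx - x * x' * e2

theorem CC_reflect (q : S) (N : ℕ) (x x' : S) (hx : x * x' * q ^ (2 * (2 * N + 1)) = 1) :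
    CC q N x' = (-1) ^ N * (x' * q ^ (2 * N + 1)) ^ (3 * N + 1) * CC q N x := by
  unfold CC
  rw [← Finset.sum_range_reflect, Finset.mul_sum]
  apply Finset.sum_congr rfl
  intro s hs
  have hs' : s ≤ N := by
    have := Finset.mem_range.mp hs
    omega
  have e0 : N + 1 - 1 - s = N - s := by omega
  rw [e0, ff_reflect q N s hs' x x' hx, hh_reflect q N s hs' x x' hx]
  obtain ⟨m, rfl⟩ := Nat.exists_eq_add_of_le hs'
  have e1 : s + m - s = m := by omega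
  rw [e1]
  have e3 : (1 : S) + x' * q ^ (4 * m + 1) = x' * q ^ (4 * m + 1) * (1 + x * q ^ (4 * s + 1)) := by
    have e4 : q ^ (4 * m + 1) * q ^ (4 * s + 1) = q ^ (2 * (2 * (s + m) + 1)) := by
      rw [← pow_add]
      congr 1
      ring
    linear_combination (-1 : S) * hx - x * x' * e4
  rw [e3]
  have e5 : ∀ y : S, (-y) ^ m = (-1) ^ m * y ^ m := by
    intro y; rw [neg_pow]
  have e6 : ∀ y : S, (-y) ^ s = (-1) ^ s * y ^ s := by
    intro y; rw [neg_pow]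
  rw [e5, e6]
  have e7 : ((-1 : S) ^ m) ^ 3 * ((-1 : S) ^ s) ^ 3 = (-1) ^ (s + m) := by
    rw [← pow_mul, ← pow_mul, ← pow_add]
    rw [show m * 3 + s * 3 = 2 * (s + m) + (s + m) by ring, pow_add, pow_mul]
    simp
  have e8 : q ^ m * q ^ (4 * m + 1) * (q ^ (2 * m ^ 2)) ^ 3 * (q ^ (4 * s * m + 2 * s ^ 2 + 2 * s)) ^ 3 =
      (q ^ (2 * (s + m) + 1)) ^ (3 * (s + m) + 1) * q ^ s := by
    rw [← pow_mul, ← pow_mul, ← pow_add, ← pow_add, ← pow_add, ← pow_mul, ← pow_add]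
    congr 1
    ring
  have e9 : x' * (x' ^ m) ^ 3 * (x' ^ s) ^ 3 = x' ^ (3 * (s + m) + 1) := by
    ring
  rw [mul_pow x' _ (3 * (s + m) + 1), ← e7, ← e9]
  linear_combination (((-1 : S) ^ m) ^ 3 * ((-1 : S) ^ s) ^ 3 * (x' * (x' ^ m) ^ 3 * (x' ^ s) ^ 3) * (1 + x * q ^ (4 * s + 1)) *
    (ff q s x) ^ 3 * (hh q (s + m) s x) ^ 3) * e8

theorem eval_one_add (p : S[X]) {t : S} (ht : t ^ 2 = 0) :
    p.eval (1 + t) = p.eval 1 + (derivative p).eval 1 * t := by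
  have := Polynomial.aeval_add_of_sq_eq_zero p (1 : S) t ht
  simpa using this

noncomputable def gpoly (q : S) (N : ℕ) : S[X] := ∏ j ∈ Finset.range N, (1 - X * C (q ^ (4 * j + 4)))

theorem gpoly_eval (q : S) (N : ℕ) (x : S) : (gpoly q N).eval x = gg q N x := by
  simp [gpoly, gg, Polynomial.eval_prod]

theorem gg_mul (q : S) (N : ℕ) {t : S} (ht : t ^ 2 = 0) : gg q N (1 + t) * gg q N (1 - t) = (gg q N 1) ^ 2 := by
  rw [← gpoly_eval, ← gpoly_eval, ← gpoly_eval, sub_eq_add_neg, eval_one_add _ ht,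
    eval_one_add _ (show (-t) ^ 2 = 0 by rw [neg_sq, ht])]
  linear_combination (- ((derivative (gpoly q N)).eval 1) ^ 2) * ht

noncomputable def Cpoly (q : S) (N : ℕ) : S[X] :=
  ∑ s ∈ Finset.range (N + 1), C (q ^ s) * (1 + X * C (q ^ (4 * s + 1))) *
    (∏ j ∈ Finset.range s, (1 - X * C (q ^ (4 * j + 2)))) ^ 3 *
    (∏ j ∈ Finset.range (N - s), (1 - X * C (q ^ (4 * (s + 1 + j))))) ^ 3

theorem Cpoly_eval (q : S) (N : ℕ) (x : S) : (Cpoly q N).eval x = CC q N x := by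
  simp [Cpoly, CC, ff, hh, Polynomial.eval_prod, Polynomial.eval_finsetSum]

/-- linearisation of C -/
theorem CC_lin (q e : S) (N r : ℕ) (hN : Even N) (he : e ^ 2 = 0) (hq : q ^ (2 * N + 1) = 1 + e) :
    CC q N (1 + 4 * r * e) = (1 + 2 * r * (3 * N + 1) * e) * CC q N 1 := by
  have hq2 : q ^ (2 * (2 * N + 1)) = 1 + 2 * e := by
    rw [mul_comm, pow_mul, hq]
    linear_combination he
  have h1 := CC_reflect q N 1 (1 - 2 * e) (by
    rw [hq2]; linear_combination (-4 : S) * he)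
  have h2 : (1 - 2 * e) * q ^ (2 * N + 1) = 1 + (-e) := by
    rw [hq]; linear_combination (-2 : S) * he
  rw [h2, one_add_pow (show (-e) ^ 2 = 0 by rw [neg_sq, he]), hN.neg_one_pow, one_mul] at h1
  rw [← Cpoly_eval, ← Cpoly_eval] at h1
  rw [← Cpoly_eval, ← Cpoly_eval]
  have h3 : (1 - 2 * e) = 1 + (-2 * e) := by ring
  rw [h3, eval_one_add _ (show (-2 * e) ^ 2 = 0 by linear_combination (4 : S) * he)] at h1
  rw [eval_one_add _ (show (4 * (r : S) * e) ^ 2 = 0 by linear_combination (16 * (r : S) ^ 2) * he)]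
  push_cast at h1
  linear_combination (-2 * (r : S)) * h1

/-- the key product congruence -/
theorem star (q e : S) (N r : ℕ) (he : e ^ 2 = 0) (hq : q ^ (2 * N + 1) = 1 + e) :
    q ^ ((2 * N + 1) ^ 2) * (1 - e) * ff q N (1 + 4 * r * e) * gg q N (1 + (4 * r + 2) * e) =
      gg q N (1 + (4 * r + 4) * e) * ff q N (1 + (4 * r + 2) * e) := by
  have hq2 : q ^ (2 * (2 * N + 1)) = 1 + 2 * e := by
    rw [mul_comm, pow_mul, hq]
    linear_combination he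
  have h1 := ff_reflect q N 0 (Nat.zero_le N) (1 - (4 * r + 2) * e) (1 + 4 * r * e) (by
    rw [hq2]
    linear_combination (-4 - 4 * (r:S) * (4 * r + 2) * (1 + 2 * e)) * he)
  have h2 := ff_reflect q N 0 (Nat.zero_le N) (1 - (4 * r + 4) * e) (1 + (4 * r + 2) * e) (by
    rw [hq2]
    linear_combination (-4 - (4 * (r:S) + 4) * (4 * r + 2) * (1 + 2 * e)) * he)
  have hgh : ∀ x : S, hh q N 0 x = gg q N x := by
    intro x
    have := gg_split q N 0 (Nat.zero_le N) x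
    rw [this]
    simp [gg]
  rw [hgh, Nat.sub_zero] at h1 h2
  rw [h1, h2]
  have h3 := gg_mul q N (t := (4 * r + 2) * e) (by linear_combination (4 * (r : S) + 2) ^ 2 * he)
  have h4 := gg_mul q N (t := (4 * r + 4) * e) (by linear_combination (4 * (r : S) + 4) ^ 2 * he)
  have h5 : q ^ ((2 * N + 1) ^ 2) * (1 - e) = (q ^ (2 * (2 * N + 1))) ^ N := by
    have : q ^ ((2 * N + 1) ^ 2) = (q ^ (2 * (2 * N + 1))) ^ N * q ^ (2 * N + 1) := by
      rw [← pow_mul, ← pow_add]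
      congr 1
      ring
    rw [this, hq]
    linear_combination (-(q ^ (2 * (2 * N + 1))) ^ N) * he
  rw [h5, hq2]
  have h6 : (-(1 + (4 * (r : S) + 2) * e)) ^ N = (1 + 2 * e) ^ N * (-(1 + 4 * r * e)) ^ N := by
    rw [← mul_pow]
    congr 1
    linear_combination (8 * (r : S)) * he
  rw [h6]
  linear_combination ((1 + 2 * e) ^ N * (-(1 + 4 * (r : S) * e)) ^ N * q ^ (2 * N ^ 2)) * (h3 - h4)

end ring

/-! ## Assembly -/

/-- `U_k = ∏_{j<k} (1-q^{4j+2})/(1-q^{4j+4})` -/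
noncomputable def U (k : ℕ) : RatFunc ℚ :=
  ∏ j ∈ Finset.range k, ((1 - RatFunc.X ^ (4 * j + 2)) / (1 - RatFunc.X ^ (4 * j + 4)))

theorem X_pow_ne_one {k : ℕ} (hk : k ≠ 0) : (RatFunc.X : RatFunc ℚ) ^ k ≠ 1 := by
  intro h
  have : (algebraMap ℚ[X] (RatFunc ℚ)) (X ^ k) = (algebraMap ℚ[X] (RatFunc ℚ)) 1 := by
    simpa using h
  have h2 := RatFunc.algebraMap_injective ℚ this
  have h3 := congrArg Polynomial.natDegree h2
  simp at h3
  exact hk h3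

theorem X_ne_zero : (RatFunc.X : RatFunc ℚ) ≠ 0 := RatFunc.X_ne_zero

theorem one_sub_X_pow_ne {k : ℕ} (hk : k ≠ 0) : 1 - (RatFunc.X : RatFunc ℚ) ^ k ≠ 0 :=
  sub_ne_zero.mpr (X_pow_ne_one hk).symm

theorem X_pow_ne_X_pow {k l : ℕ} (h : k ≠ l) : (RatFunc.X : RatFunc ℚ) ^ k - RatFunc.X ^ l ≠ 0 := by
  intro h0
  have h1 := sub_eq_zero.mp h0
  rcases lt_or_gt_of_ne h with h | h
  · obtain ⟨m, rfl⟩ := Nat.exists_eq_add_of_lt h
    have : (RatFunc.X : RatFunc ℚ) ^ (m + 1) = 1 := by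
      have h2 : (RatFunc.X : RatFunc ℚ) ^ k * (RatFunc.X : RatFunc ℚ) ^ (m + 1) = RatFunc.X ^ k * 1 := by
        rw [← pow_add, mul_one, h1]
        congr 1
      exact mul_left_cancel₀ (pow_ne_zero _ X_ne_zero) h2
    exact X_pow_ne_one (Nat.succ_ne_zero m) this
  · obtain ⟨m, rfl⟩ := Nat.exists_eq_add_of_lt h
    have : (RatFunc.X : RatFunc ℚ) ^ (m + 1) = 1 := by
      have h2 : (RatFunc.X : RatFunc ℚ) ^ l * (RatFunc.X : RatFunc ℚ) ^ (m + 1) = RatFunc.X ^ l * 1 := by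
        rw [← pow_add, mul_one, ← h1]
        congr 1
      exact mul_left_cancel₀ (pow_ne_zero _ X_ne_zero) h2
    exact X_pow_ne_one (Nat.succ_ne_zero m) this

theorem one_add_X_ne : 1 + (RatFunc.X : RatFunc ℚ) ≠ 0 := by
  intro h
  have : (algebraMap ℚ[X] (RatFunc ℚ)) (1 + X) = (algebraMap ℚ[X] (RatFunc ℚ)) 0 := by
    simpa using h
  have h2 := RatFunc.algebraMap_injective ℚ this
  have h3 := congrArg (Polynomial.coeff · 0) h2
  simp at h3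

/-- the q-Dixon sum in `ℚ(q)` evaluates to `R_n` -/
theorem RR_eq_R (N : ℕ) : RR (RatFunc.X : RatFunc ℚ) (RatFunc.X ^ 4) (RatFunc.X ^ (4 * N + 4)) N = R (2 * N + 1) := by
  have hz : (1 - ((2 * N + 1 : ℕ) : ℤ)) / 2 = -(N : ℤ) := by
    push_cast
    omega
  have hn : (2 * N + 1 - 1) / 2 = N := by omega
  unfold RR R
  rw [hz, hn, zpow_neg, zpow_natCast]
  rw [Finset.prod_div_distrib, Finset.prod_div_distrib, Finset.prod_mul_distrib, Finset.prod_mul_distrib]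
  generalize hq : (RatFunc.X : RatFunc ℚ) = q at *
  have hq0 : q ≠ 0 := by rw [← hq]; exact X_ne_zero
  have r1 : ∏ j ∈ Finset.range N, (1 - q ^ 2 * (q ^ 4) ^ (j + 1)) = ∏ j ∈ Finset.range N, (1 - q ^ (4 * j + 6)) := by
    apply Finset.prod_congr rfl
    intro j _
    congr 1
    ring
  have r2 : ∏ j ∈ Finset.range N, (q ^ (4 * N + 4) - q * (q ^ 4) ^ (j + 1)) =
      ∏ j ∈ Finset.range N, (q ^ (4 * N + 4) - q ^ (4 * j + 5)) := by
    apply Finset.prod_congr rfl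
    intro j _
    congr 1
    ring
  have r3 : ∏ j ∈ Finset.range N, (q ^ (4 * N + 4) - q ^ 2 * (q ^ 4) ^ (j + 1)) =
      ∏ j ∈ Finset.range N, (q ^ (4 * N + 4) - q ^ (4 * j + 6)) := by
    apply Finset.prod_congr rfl
    intro j _
    congr 1
    ring
  have r4 : ∏ j ∈ Finset.range N, (1 - q * (q ^ 4) ^ (j + 1)) = ∏ j ∈ Finset.range N, (1 - q ^ (4 * j + 5)) := by
    apply Finset.prod_congr rfl
    intro j _
    congr 1
    ring
  rw [r1, r2, r3, r4]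
  have k1 : q ^ N * (∏ j ∈ Finset.range N, (q ^ (4 * N + 4) - q ^ (4 * j + 5))) *
      (∏ j ∈ Finset.range N, (1 - q ^ (4 * j + 2))) =
      (∏ j ∈ Finset.range N, (q ^ (4 * N + 4) - q ^ (4 * j + 6))) * (∏ j ∈ Finset.range N, (1 - q ^ (4 * j + 3))) := by
    rw [← Finset.prod_range_reflect (fun j => 1 - q ^ (4 * j + 2)),
      ← Finset.prod_range_reflect (fun j => 1 - q ^ (4 * j + 3)), ← Finset.prod_mul_distrib]
    have : q ^ N = ∏ j ∈ Finset.range N, q := by simp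
    rw [this, ← Finset.prod_mul_distrib, ← Finset.prod_mul_distrib]
    apply Finset.prod_congr rfl
    intro j hj
    have hj' := Finset.mem_range.mp hj
    obtain ⟨m, rfl⟩ := Nat.exists_eq_add_of_lt hj'
    have e1 : j + m + 1 - 1 - j = m := by omega
    rw [e1]
    ring
  have k2 : (∏ j ∈ Finset.range N, (1 - q ^ (4 * j + 6))) * (1 - q ^ 2) =
      (∏ j ∈ Finset.range N, (1 - q ^ (4 * j + 2))) * (1 - q ^ (4 * N + 2)) := by
    have e1 : ∏ j ∈ Finset.range (N + 1), (1 - q ^ (4 * j + 2)) =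
        (∏ j ∈ Finset.range N, (1 - q ^ (4 * j + 2))) * (1 - q ^ (4 * N + 2)) := by
      rw [Finset.prod_range_succ]
    rw [← e1, Finset.prod_range_succ']
    congr 1
  have k3 : (∑ i ∈ Finset.range (2 * N + 1), q ^ (2 * i)) * (1 - q ^ 2) = 1 - q ^ (4 * N + 2) := by
    have := geom_sum_mul_neg (q ^ 2) (2 * N + 1)
    rw [← pow_mul] at this
    have e : 2 * (2 * N + 1) = 4 * N + 2 := by ring
    rw [e] at this
    rw [← this]
    congr 1
    apply Finset.sum_congr rfl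
    intro i _
    rw [pow_mul]
  have n2 : 1 - q ^ 2 ≠ 0 := by rw [← hq]; exact one_sub_X_pow_ne (by norm_num)
  have k4 : (∏ j ∈ Finset.range N, (1 - q ^ (4 * j + 6))) =
      (∑ i ∈ Finset.range (2 * N + 1), q ^ (2 * i)) * (∏ j ∈ Finset.range N, (1 - q ^ (4 * j + 2))) := by
    apply mul_right_cancel₀ n2
    rw [k2, ← k3]
    ring
  have n3 : (∏ j ∈ Finset.range N, (q ^ (4 * N + 4) - q ^ (4 * j + 6))) ≠ 0 := by
    rw [Finset.prod_ne_zero_iff]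
    intro j _
    rw [← hq]
    exact X_pow_ne_X_pow (by omega)
  have n4 : (∏ j ∈ Finset.range N, (1 - q ^ (4 * j + 5))) ≠ 0 := by
    rw [Finset.prod_ne_zero_iff]
    intro j _
    rw [← hq]
    exact one_sub_X_pow_ne (by omega)
  have n5 : q ^ N ≠ 0 := pow_ne_zero _ hq0
  rw [k4]
  rw [← mul_div_assoc, div_eq_div_iff (mul_ne_zero n3 n4) n4]
  field_simp
  linear_combination (∑ i ∈ Finset.range (2 * N + 1), q ^ (2 * i)) * k1

theorem sum_tt_eq_R (N : ℕ) :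
    ∑ k ∈ Finset.range (N + 1), tt (RatFunc.X : RatFunc ℚ) (RatFunc.X ^ 4) (RatFunc.X ^ (4 * N + 4)) N k =
      R (2 * N + 1) := by
  rw [← RR_eq_R]
  apply qdixon
  · intro j
    rw [← pow_mul]
    exact one_sub_X_pow_ne (by omega)
  · intro j
    rw [← pow_mul, ← pow_add]
    exact X_pow_ne_X_pow (by omega)
  · intro j
    rw [← pow_mul, ← pow_add]
    exact one_sub_X_pow_ne (by omega)
  · exact one_add_X_ne
  · intro j
    rw [← pow_mul, ← pow_succ']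
    exact X_pow_ne_X_pow (by omega)
  · intro j
    rw [← pow_mul, ← pow_succ']
    exact one_sub_X_pow_ne (by omega)


/-! ### Transfer to dual numbers -/

theorem Rep.mk_div {ζ : ℂ} {A B : RatFunc ℚ} {x y z : D} (ha : Rep ζ A x) (hb : Rep ζ B y) (h : y.fst ≠ 0)
    (hz : z * y = x) : Rep ζ (A / B) z := by
  have h1 := ha.div hb h
  have h2 : x * y⁻¹ = z := by
    rw [← hz, mul_assoc, TrivSqZeroExt.mul_inv_cancel h, mul_one]
  rwa [h2] at h1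

theorem Rep.one_sub_pow {ζ : ℂ} (k : ℕ) : Rep ζ (1 - RatFunc.X ^ k) (1 - (qd ζ) ^ k) :=
  Rep.one.sub (Rep.X.pow k)

section zeta
variable {n : ℕ} {ζ : ℂ}

/-- `e = q^n - 1` -/
noncomputable def ee (n : ℕ) : D := inr (n : ℂ)

theorem ee_sq (n : ℕ) : (ee n) ^ 2 = 0 := by
  unfold ee
  rw [sq, inr_mul_inr]

theorem qd_pow_n (hζ : IsPrimitiveRoot ζ n) : (qd ζ) ^ n = 1 + ee n := by
  rw [qd_pow, hζ.pow_eq_one]
  simp [ee]

theorem fst_qd_pow (ζ : ℂ) (k : ℕ) : ((qd ζ) ^ k).fst = ζ ^ k := by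
  rw [qd_pow]; simp

theorem fst_one_sub_ne (hζ : IsPrimitiveRoot ζ n) {x : D} (hx : x.fst = 1) {k : ℕ} (hk : ¬ n ∣ k) :
    (1 - x * (qd ζ) ^ k).fst ≠ 0 := by
  rw [fst_sub, fst_one, fst_mul, hx, one_mul, fst_qd_pow]
  intro h
  apply hk
  exact (hζ.pow_eq_one_iff_dvd k).mp (sub_eq_zero.mp h).symm


/-- the point `x_r = q^{4rn}` -/
noncomputable def xr (ζ : ℂ) (n r : ℕ) : D := (qd ζ) ^ (4 * (r * n))

theorem xr_eq (hζ : IsPrimitiveRoot ζ n) (r : ℕ) : xr ζ n r = 1 + 4 * r * ee n := by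
  unfold xr
  have : 4 * (r * n) = n * (4 * r) := by ring
  rw [this, pow_mul, qd_pow_n hζ, one_add_pow (ee_sq n)]
  push_cast
  ring

theorem fst_ee (n : ℕ) : (ee n).fst = 0 := by simp [ee]

theorem fst_xr (hζ : IsPrimitiveRoot ζ n) (r : ℕ) : (xr ζ n r).fst = 1 := by
  rw [xr_eq hζ]
  simp [fst_ee]

theorem fst_prod (s : Finset ℕ) (f : ℕ → D) : (∏ i ∈ s, f i).fst = ∏ i ∈ s, (f i).fst := by
  exact map_prod (fstHom ℂ ℂ ℂ) f s

theorem not_dvd_aux {N k : ℕ} (h1 : 0 < k) (h2 : k < 2 * N + 1) : ¬ (2 * N + 1) ∣ 4 * k := by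
  intro h
  have hc : Nat.Coprime (2 * N + 1) 4 := by
    have : Nat.Coprime (2 * N + 1) 2 := by
      rw [Nat.coprime_comm, Nat.coprime_two_left]
      exact ⟨N, rfl⟩
    exact Nat.Coprime.pow_right 2 this
  have := Nat.le_of_dvd h1 (hc.dvd_of_dvd_mul_left h)
  omega

theorem not_dvd_aux2 {N j : ℕ} (h2 : j < N) : ¬ (2 * N + 1) ∣ 4 * j + 2 := by
  intro h
  have hc : Nat.Coprime (2 * N + 1) 2 := by
    rw [Nat.coprime_comm, Nat.coprime_two_left]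
    exact ⟨N, rfl⟩
  have h3 : (2 * N + 1) ∣ 2 * (2 * j + 1) := by
    have : 2 * (2 * j + 1) = 4 * j + 2 := by ring
    rwa [this]
  have := Nat.le_of_dvd (by omega) (hc.dvd_of_dvd_mul_left h3)
  omega

theorem fst_gg_ne {N : ℕ} (hζ : IsPrimitiveRoot ζ (2 * N + 1)) {x : D} (hx : x.fst = 1) (s : ℕ) (hs : s ≤ 2 * N) :
    (gg (qd ζ) s x).fst ≠ 0 := by
  unfold gg
  rw [fst_prod, Finset.prod_ne_zero_iff]
  intro j hj
  have hj' := Finset.mem_range.mp hj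
  apply fst_one_sub_ne hζ hx
  have := not_dvd_aux (N := N) (k := j + 1) (by omega) (by omega)
  have e : 4 * (j + 1) = 4 * j + 4 := by ring
  rwa [e] at this

theorem fst_ff_ne {N : ℕ} (hζ : IsPrimitiveRoot ζ (2 * N + 1)) {x : D} (hx : x.fst = 1) :
    (ff (qd ζ) N x).fst ≠ 0 := by
  unfold ff
  rw [fst_prod, Finset.prod_ne_zero_iff]
  intro j hj
  have hj' := Finset.mem_range.mp hj
  apply fst_one_sub_ne hζ hx
  exact not_dvd_aux2 hj'

/-- geometric sums of `Q = q^{2n}` in the dual numbers -/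
theorem geom_dual (hζ : IsPrimitiveRoot ζ n) (m : ℕ) :
    2 * ∑ l ∈ Finset.range m, ((qd ζ) ^ (2 * n)) ^ l = 2 * m + 2 * m * (m - 1) * ee n := by
  have h1 : (qd ζ) ^ (2 * n) = 1 + 2 * ee n := by
    rw [mul_comm, pow_mul, qd_pow_n hζ]
    linear_combination (ee_sq n)
  induction m with
  | zero => simp
  | succ m ih =>
    rw [Finset.sum_range_succ, mul_add, ih, h1, one_add_pow (show (2 * ee n) ^ 2 = 0 by linear_combination 4 * (ee_sq n))]
    push_cast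
    ring


/-- the number `C_r = (1/2)_r / r!` -/
def Cr (r : ℕ) : ℚ := ∏ i ∈ Finset.range r, ((2 * (i : ℚ) + 1) / (2 * i + 2))

theorem Cr_cube (r : ℕ) : (Cr r) ^ 3 = c r := by
  have : Cr r = (∏ j ∈ Finset.range r, ((1 : ℚ) / 2 + j)) / (r.factorial : ℚ) := by
    unfold Cr
    induction r with
    | zero => simp
    | succ r ih =>
      rw [Finset.prod_range_succ, ih, Finset.prod_range_succ, Nat.factorial_succ]
      push_cast
      have h1 : (r.factorial : ℚ) ≠ 0 := by positivity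
      have h2 : ((r : ℚ) + 1) ≠ 0 := by positivity
      field_simp
      ring
  rw [this, div_pow]
  rfl

/-- value of the ratio of the two singular factors -/
theorem rep_sing {N : ℕ} (hζ : IsPrimitiveRoot ζ (2 * N + 1)) (r : ℕ) :
    Rep ζ ((1 - RatFunc.X ^ (4 * (r * (2 * N + 1)) + 2 * (2 * N + 1))) /
        (1 - RatFunc.X ^ (4 * (r * (2 * N + 1)) + 4 * (2 * N + 1))))
      (algebraMap ℚ D ((2 * (r : ℚ) + 1) / (2 * r + 2)) * (1 - ee (2 * N + 1))) := by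
  set n := 2 * N + 1 with hn
  have e1 : 4 * (r * n) + 2 * n = (2 * n) * (2 * r + 1) := by ring
  have e2 : 4 * (r * n) + 4 * n = (2 * n) * (2 * r + 2) := by ring
  rw [e1, e2, pow_mul _ (2 * n) (2 * r + 1), pow_mul _ (2 * n) (2 * r + 2)]
  have g1 := geom_sum_mul_neg ((RatFunc.X : RatFunc ℚ) ^ (2 * n)) (2 * r + 1)
  have g2 := geom_sum_mul_neg ((RatFunc.X : RatFunc ℚ) ^ (2 * n)) (2 * r + 2)
  have hne : 1 - (RatFunc.X : RatFunc ℚ) ^ (2 * n) ≠ 0 := one_sub_X_pow_ne (by omega)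
  rw [← g1, ← g2, mul_div_mul_right _ _ hne]
  have h1 : Rep ζ (∑ l ∈ Finset.range (2 * r + 1), ((RatFunc.X : RatFunc ℚ) ^ (2 * n)) ^ l)
      (∑ l ∈ Finset.range (2 * r + 1), ((qd ζ) ^ (2 * n)) ^ l) :=
    Rep.sum _ _ _ (fun l _ => (Rep.X.pow (2 * n)).pow l)
  have h2 : Rep ζ (∑ l ∈ Finset.range (2 * r + 2), ((RatFunc.X : RatFunc ℚ) ^ (2 * n)) ^ l)
      (∑ l ∈ Finset.range (2 * r + 2), ((qd ζ) ^ (2 * n)) ^ l) :=
    Rep.sum _ _ _ (fun l _ => (Rep.X.pow (2 * n)).pow l)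
  have v1 := geom_dual hζ (2 * r + 1)
  have v2 := geom_dual hζ (2 * r + 2)
  have two : (algebraMap ℚ D (1 / 2)) * 2 = 1 := by
    have : (2 : D) = algebraMap ℚ D 2 := (map_ofNat (algebraMap ℚ D) 2).symm
    rw [this, ← map_mul]
    norm_num
  have v1' : ∑ l ∈ Finset.range (2 * r + 1), ((qd ζ) ^ (2 * n)) ^ l =
      (2 * r + 1 : D) + (2 * r + 1) * (2 * r) * ee n := by
    push_cast at v1
    linear_combination (algebraMap ℚ D (1 / 2)) * v1 + ((2 * r + 1 : D) + (2 * r + 1) * (2 * r) * ee n -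
      ∑ l ∈ Finset.range (2 * r + 1), ((qd ζ) ^ (2 * n)) ^ l) * two
  have v2' : ∑ l ∈ Finset.range (2 * r + 2), ((qd ζ) ^ (2 * n)) ^ l =
      (2 * r + 2 : D) + (2 * r + 2) * (2 * r + 1) * ee n := by
    push_cast at v2
    linear_combination (algebraMap ℚ D (1 / 2)) * v2 + ((2 * r + 2 : D) + (2 * r + 2) * (2 * r + 1) * ee n -
      ∑ l ∈ Finset.range (2 * r + 2), ((qd ζ) ^ (2 * n)) ^ l) * two
  rw [v1'] at h1
  rw [v2'] at h2
  apply h1.mk_div h2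
  · have : ((2 * r + 2 : D) + (2 * r + 2) * (2 * r + 1) * ee n).fst = ((2 * r + 2 : ℕ) : ℂ) := by
      have h2 : (2 * r + 2 : D) = ((2 * r + 2 : ℕ) : D) := by push_cast; ring
      rw [h2, fst_add, fst_mul, fst_ee, fst_natCast]
      simp
    rw [this]
    exact Nat.cast_ne_zero.mpr (by omega)
  · have h3 : algebraMap ℚ D ((2 * (r : ℚ) + 1) / (2 * r + 2)) * (2 * r + 2 : D) = 2 * r + 1 := by
      have h4 : (2 * r + 2 : D) = algebraMap ℚ D (2 * r + 2) := by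
        rw [map_add, map_mul, map_natCast, map_ofNat]
      have h5 : (2 * r + 1 : D) = algebraMap ℚ D (2 * r + 1) := by
        rw [map_add, map_mul, map_natCast, map_ofNat, map_one]
      rw [h4, h5, ← map_mul]
      congr 1
      have : (2 * (r : ℚ) + 2) ≠ 0 := by positivity
      field_simp
    have h6 := ee_sq n
    linear_combination (1 - ee n) * (1 + (2 * r + 1) * ee n) * h3 - (2 * r + 1 : D) * (2 * r + 1) * h6


theorem Rep.ff {ζ : ℂ} (s : ℕ) {A : RatFunc ℚ} {x : D} (h : Rep ζ A x) : Rep ζ (ff RatFunc.X s A) (ff (qd ζ) s x) := by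
  unfold LiuQ.ff
  exact Rep.prod _ _ _ (fun j _ => Rep.one.sub (h.mul (Rep.X.pow _)))

theorem Rep.gg {ζ : ℂ} (s : ℕ) {A : RatFunc ℚ} {x : D} (h : Rep ζ A x) : Rep ζ (gg RatFunc.X s A) (gg (qd ζ) s x) := by
  unfold LiuQ.gg
  exact Rep.prod _ _ _ (fun j _ => Rep.one.sub (h.mul (Rep.X.pow _)))

/-- `V_{k,s} = ∏_{j<s} (1-q^{4k} q^{4j+2})/(1-q^{4k} q^{4j+4})` -/
noncomputable def V (k s : ℕ) : RatFunc ℚ :=
  ff RatFunc.X s (RatFunc.X ^ (4 * k)) / gg RatFunc.X s (RatFunc.X ^ (4 * k))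

theorem U_add (k s : ℕ) : U (k + s) = U k * V k s := by
  unfold U V ff gg
  rw [Finset.prod_range_add, ← Finset.prod_div_distrib]
  congr 1
  apply Finset.prod_congr rfl
  intro j _
  rw [← pow_add, ← pow_add]
  have e1 : 4 * (k + j) + 2 = 4 * k + (4 * j + 2) := by ring
  have e2 : 4 * (k + j) + 4 = 4 * k + (4 * j + 4) := by ring
  rw [e1, e2]

theorem ff_full {S : Type*} [CommRing S] (q x : S) (N : ℕ) : ff q (2 * N + 1) x =
    ff q N x * gg q N (x * q ^ (2 * (2 * N + 1))) * (1 - x * q ^ (2 * (2 * N + 1))) := by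
  unfold ff gg
  have : 2 * N + 1 = N + (1 + N) := by ring
  conv_lhs => rw [this]
  rw [Finset.prod_range_add, Finset.prod_range_add, Finset.prod_range_one]
  have e1 : 4 * (N + 0) + 2 = 2 * (2 * N + 1) := by ring
  rw [e1, mul_comm (1 - x * q ^ (2 * (2 * N + 1))), mul_assoc]
  congr 2
  apply Finset.prod_congr rfl
  intro j _
  ring

theorem gg_full {S : Type*} [CommRing S] (q x : S) (N : ℕ) : gg q (2 * N + 1) x =
    gg q N x * ff q N (x * q ^ (2 * (2 * N + 1))) * (1 - x * q ^ (4 * (2 * N + 1))) := by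
  unfold ff gg
  have : 2 * N + 1 = N + N + 1 := by ring
  conv_lhs => rw [this]
  rw [Finset.prod_range_succ, Finset.prod_range_add]
  have e1 : 4 * (N + N) + 4 = 4 * (2 * N + 1) := by ring
  rw [e1]
  congr 2
  apply Finset.prod_congr rfl
  intro j _
  ring

/-- the values of `U_{rn}` -/
theorem rep_U {N : ℕ} (hζ : IsPrimitiveRoot ζ (2 * N + 1)) (r : ℕ) :
    ∃ d : D, Rep ζ (U (r * (2 * N + 1))) d ∧
      d * (qd ζ) ^ (r * (2 * N + 1) ^ 2) * gg (qd ζ) N 1 = algebraMap ℚ D (Cr r) * gg (qd ζ) N (xr ζ (2 * N + 1) r) := by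
  induction r with
  | zero =>
    refine ⟨1, ?_, ?_⟩
    · simpa [U] using Rep.one
    · simp [Cr, xr]
  | succ r ih =>
    obtain ⟨d, hd, hd2⟩ := ih
    have hs := rep_sing hζ r
    set n := 2 * N + 1 with hn
    set x := xr ζ n r with hx
    have hx1 : x = 1 + 4 * r * ee n := xr_eq hζ r
    have hx0 : x.fst = 1 := fst_xr hζ r
    have hq2 : (qd ζ) ^ (2 * n) = 1 + 2 * ee n := by
      rw [mul_comm, pow_mul, qd_pow_n hζ]
      linear_combination (ee_sq n)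
    have hX : Rep ζ ((RatFunc.X : RatFunc ℚ) ^ (4 * (r * n))) x := Rep.X.pow _
    have hX2 : Rep ζ ((RatFunc.X : RatFunc ℚ) ^ (4 * (r * n)) * RatFunc.X ^ (2 * n)) (x * (qd ζ) ^ (2 * n)) :=
      hX.mul (Rep.X.pow _)
    have hx2 : x * (qd ζ) ^ (2 * n) = 1 + (4 * r + 2) * ee n := by
      rw [hx1, hq2]
      linear_combination (8 * (r : D)) * (ee_sq n)
    have hx20 : (x * (qd ζ) ^ (2 * n)).fst = 1 := by
      rw [hx2]; simp [fst_ee]
    have f1 := hX.ff N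
    have f2 := hX2.gg N
    have g1 := hX.gg N
    have g2 := hX2.ff N
    have n1 := fst_gg_ne hζ hx0 N (by omega)
    have n2 := fst_ff_ne hζ hx20
    have e1 : (r + 1) * n = r * n + n := by ring
    have hV : V (r * n) n = (ff RatFunc.X N (RatFunc.X ^ (4 * (r * n))) * gg RatFunc.X N (RatFunc.X ^ (4 * (r * n)) * RatFunc.X ^ (2 * n))) /
       (gg RatFunc.X N (RatFunc.X ^ (4 * (r * n))) * ff RatFunc.X N (RatFunc.X ^ (4 * (r * n)) * RatFunc.X ^ (2 * n))) *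
       ((1 - RatFunc.X ^ (4 * (r * n) + 2 * n)) / (1 - RatFunc.X ^ (4 * (r * n) + 4 * n))) := by
      unfold V
      rw [hn, ff_full, gg_full, div_mul_div_comm, pow_add, pow_add]
    have hnum := f1.mul f2
    have hden := g1.mul g2
    have hden0 : (gg (qd ζ) N x * ff (qd ζ) N (x * qd ζ ^ (2 * n))).fst ≠ 0 := by
      rw [fst_mul]
      exact mul_ne_zero n1 n2
    have hratio := hnum.div hden hden0
    refine ⟨d * (ff (qd ζ) N x * gg (qd ζ) N (x * qd ζ ^ (2 * n)) * (gg (qd ζ) N x * ff (qd ζ) N (x * qd ζ ^ (2 * n)))⁻¹ *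
      (algebraMap ℚ D ((2 * (r : ℚ) + 1) / (2 * r + 2)) * (1 - ee n))), ?_, ?_⟩
    · rw [e1, U_add, hV]
      exact hd.mul (hratio.mul hs)
    · have hstar := star (qd ζ) (ee n) N r (ee_sq n) (qd_pow_n hζ)
      rw [← hx2, ← hx1, ← hn] at hstar
      have hx3 : xr ζ n (r + 1) = 1 + (4 * r + 4) * ee n := by
        rw [xr_eq hζ]
        push_cast
        ring
      rw [← hx3] at hstar
      have hC : algebraMap ℚ D (Cr (r + 1)) = algebraMap ℚ D (Cr r) * algebraMap ℚ D ((2 * (r : ℚ) + 1) / (2 * r + 2)) := by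
        rw [← map_mul]
        congr 1
        unfold Cr
        rw [Finset.prod_range_succ]
      have hcancel := TrivSqZeroExt.mul_inv_cancel hden0
      have hpow : (qd ζ) ^ ((r + 1) * n ^ 2) = (qd ζ) ^ (r * n ^ 2) * (qd ζ) ^ (n ^ 2) := by
        rw [← pow_add]
        congr 1
        ring
      rw [hC, hpow]
      generalize (gg (qd ζ) N x * ff (qd ζ) N (x * qd ζ ^ (2 * n)))⁻¹ = I at *
      generalize algebraMap ℚ D ((2 * (r : ℚ) + 1) / (2 * r + 2)) = ρ at *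
      generalize algebraMap ℚ D (Cr r) = c0 at *
      generalize gg (qd ζ) N 1 = g1v at *
      generalize gg (qd ζ) N (xr ζ n (r + 1)) = gx3 at *
      generalize gg (qd ζ) N x = gx at *
      generalize ff (qd ζ) N (x * qd ζ ^ (2 * n)) = fx2 at *
      generalize gg (qd ζ) N (x * qd ζ ^ (2 * n)) = gx2 at *
      generalize ff (qd ζ) N x = fx at *
      generalize (qd ζ) ^ (n ^ 2) = Q at *
      generalize (qd ζ) ^ (r * n ^ 2) = Q' at *
      generalize ee n = e at *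
      linear_combination (Q * (1 - e) * fx * gx2 * I * ρ) * hd2 + (c0 * gx * I * ρ) * hstar + (c0 * ρ * gx3) * hcancel


theorem factor_id (q : RatFunc ℚ) (A P P' : RatFunc ℚ) (h0 : q ≠ 0) (h1 : 1 - P ≠ 0) (h2 : 1 - P' ≠ 0) (h3 : 1 - A * P' ≠ 0)
    (h4 : A - P' ≠ 0) :
    (1 - P) * (1 - A * P) / ((1 - P') * (q ^ 2 * (A - P'))) * (q ^ 3) * ((A - P) / (1 - A * P')) =
    q * ((1 - P) / (1 - P')) ^ 3 * (((1 - A * P) * (A - P) * (1 - P') ^ 2) / ((1 - A * P') * (A - P') * (1 - P) ^ 2)) := by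
  field_simp

theorem tt_eq (N k : ℕ) :
    tt (RatFunc.X : RatFunc ℚ) (RatFunc.X ^ 4) (RatFunc.X ^ (4 * N + 4)) N k = a k *
      ∏ j ∈ Finset.range k, (((1 - RatFunc.X ^ (4 * N + 2) * RatFunc.X ^ (4 * j + 2)) *
        (RatFunc.X ^ (4 * N + 2) - RatFunc.X ^ (4 * j + 2)) * (1 - RatFunc.X ^ (4 * j + 4)) ^ 2) /
        ((1 - RatFunc.X ^ (4 * N + 2) * RatFunc.X ^ (4 * j + 4)) *
        (RatFunc.X ^ (4 * N + 2) - RatFunc.X ^ (4 * j + 4)) * (1 - RatFunc.X ^ (4 * j + 2)) ^ 2)) := by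
  unfold tt a
  have e1 : (RatFunc.X * RatFunc.X ^ 4 : RatFunc ℚ) ^ k = ∏ j ∈ Finset.range k, (RatFunc.X * RatFunc.X ^ 4) := by simp
  have e2 : (RatFunc.X : RatFunc ℚ) ^ k = ∏ j ∈ Finset.range k, RatFunc.X := by simp
  have e3 : (1 : RatFunc ℚ) + RatFunc.X * (RatFunc.X ^ 4) ^ k = 1 + RatFunc.X ^ (4 * k + 1) := by ring
  rw [e1, ← Finset.prod_div_distrib, ← Finset.prod_mul_distrib, mul_assoc, ← Finset.prod_mul_distrib, e3]
  have e4 : ∀ (u v w : RatFunc ℚ), RatFunc.X ^ k * u * v * w = u * (RatFunc.X ^ k * v * w) := by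
    intro u v w; ring
  rw [e4, e2, ← Finset.prod_mul_distrib, ← Finset.prod_mul_distrib]
  congr 1
  apply Finset.prod_congr rfl
  intro j hj
  have hj' := Finset.mem_range.mp hj
  have f0 : (RatFunc.X : RatFunc ℚ) ≠ 0 := X_ne_zero
  have f1 : 1 - (RatFunc.X : RatFunc ℚ) ^ (4 * j + 2) ≠ 0 := one_sub_X_pow_ne (by omega)
  have f2 : 1 - (RatFunc.X : RatFunc ℚ) ^ (4 * j + 4) ≠ 0 := one_sub_X_pow_ne (by omega)
  have f3 : 1 - (RatFunc.X : RatFunc ℚ) ^ (4 * N + 2) * (RatFunc.X : RatFunc ℚ) ^ (4 * j + 4) ≠ 0 := by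
    rw [← pow_add]
    exact one_sub_X_pow_ne (by omega)
  have f4 : (RatFunc.X : RatFunc ℚ) ^ (4 * N + 2) - (RatFunc.X : RatFunc ℚ) ^ (4 * j + 4) ≠ 0 :=
    X_pow_ne_X_pow (by omega)
  have := factor_id RatFunc.X _ _ _ f0 f1 f2 f3 f4
  rw [← this]
  generalize hq : (RatFunc.X : RatFunc ℚ) = q at *
  have g1 : q ^ 2 * (q ^ 4) ^ j = q ^ (4 * j + 2) := by ring
  have g2 : q ^ (4 * N + 4) * (q ^ 4) ^ j = q ^ (4 * N + 2) * q ^ (4 * j + 2) := by ring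
  have g3 : (q ^ 4) ^ (j + 1) = q ^ (4 * j + 4) := by ring
  have g4 : q ^ (4 * N + 4) - q ^ 2 * (q ^ 4) ^ (j + 1) = q ^ 2 * (q ^ (4 * N + 2) - q ^ (4 * j + 4)) := by ring
  have g5 : q * q ^ 4 = q ^ 3 * q ^ 2 := by ring
  have g6 : q ^ 2 * (q ^ 4) ^ (N + 1 + j) = q ^ (4 * N + 2) * q ^ (4 * j + 4) := by ring
  have g7 : q ^ 2 * ((q ^ 4) ^ N - (q ^ 4) ^ j) = q ^ (4 * N + 2) - q ^ (4 * j + 2) := by ring
  rw [g4, g1, g2, g3, g5, g6, ← g7]
  ring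

theorem fst_one_add_ne {N : ℕ} (hζ : IsPrimitiveRoot ζ (2 * N + 1)) : (1 + qd ζ).fst ≠ 0 := by
  have h1 : (1 + qd ζ).fst = 1 + ζ := by simp [qd]
  rw [h1]
  intro h
  have h2 : ζ = -1 := by linear_combination h
  have h3 := hζ.pow_eq_one
  rw [h2, Odd.neg_one_pow ⟨N, rfl⟩] at h3
  norm_num at h3

/-- the value of a summand -/
noncomputable def vs (ζ : ℂ) (s : ℕ) (x : D) : D := ff (qd ζ) s x * (gg (qd ζ) s x)⁻¹

noncomputable def Fv (ζ : ℂ) (N : ℕ) (x : D) : D :=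
  ∑ s ∈ Finset.range (2 * N + 1), (qd ζ) ^ s * (1 + x * (qd ζ) ^ (4 * s + 1)) * (vs ζ s x) ^ 3

theorem vs_cube_zero {N : ℕ} (hζ : IsPrimitiveRoot ζ (2 * N + 1)) (r s : ℕ) (hs : N < s) :
    (vs ζ s (xr ζ (2 * N + 1) r)) ^ 3 = 0 := by
  unfold vs
  have h1 : (1 - xr ζ (2 * N + 1) r * (qd ζ) ^ (4 * N + 2)) ∣ ff (qd ζ) s (xr ζ (2 * N + 1) r) := by
    unfold ff
    exact Finset.dvd_prod_of_mem (fun j => 1 - xr ζ (2 * N + 1) r * (qd ζ) ^ (4 * j + 2)) (Finset.mem_range.mpr hs)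
  obtain ⟨w, hw⟩ := h1
  have h2 : (1 - xr ζ (2 * N + 1) r * (qd ζ) ^ (4 * N + 2)) = - ((4 * r + 2) * ee (2 * N + 1)) := by
    have e : 4 * N + 2 = (2 * N + 1) * 2 := by ring
    rw [e, pow_mul, qd_pow_n hζ, xr_eq hζ]
    linear_combination (-(1 + 8 * (r : D)) - 4 * r * ee (2 * N + 1)) * ee_sq (2 * N + 1)
  rw [hw, h2]
  have h3 := ee_sq (2 * N + 1)
  linear_combination (-(4 * (r : D) + 2) ^ 3 * ee (2 * N + 1) * w ^ 3 * (gg (qd ζ) s (xr ζ (2 * N + 1) r))⁻¹ ^ 3) * h3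

theorem Fv_mul {N : ℕ} (hζ : IsPrimitiveRoot ζ (2 * N + 1)) (r : ℕ) :
    Fv ζ N (xr ζ (2 * N + 1) r) * (gg (qd ζ) N (xr ζ (2 * N + 1) r)) ^ 3 = CC (qd ζ) N (xr ζ (2 * N + 1) r) := by
  unfold Fv CC
  have e : 2 * N + 1 = (N + 1) + N := by ring
  conv_lhs => rw [show Finset.range (2 * N + 1) = Finset.range ((N + 1) + N) by rw [← e]]
  rw [Finset.sum_range_add]
  have hz : ∑ s ∈ Finset.range N, (qd ζ) ^ (N + 1 + s) * (1 + xr ζ (2 * N + 1) r * (qd ζ) ^ (4 * (N + 1 + s) + 1)) *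
      (vs ζ (N + 1 + s) (xr ζ (2 * N + 1) r)) ^ 3 = 0 := by
    apply Finset.sum_eq_zero
    intro s _
    rw [vs_cube_zero hζ r (N + 1 + s) (by omega), mul_zero]
  rw [hz, add_zero, Finset.sum_mul]
  apply Finset.sum_congr rfl
  intro s hs
  have hs' : s ≤ N := by
    have := Finset.mem_range.mp hs
    omega
  have h1 := TrivSqZeroExt.mul_inv_cancel (fst_gg_ne hζ (fst_xr hζ r) s (by omega))
  have h2 := gg_split (qd ζ) N s hs' (xr ζ (2 * N + 1) r)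
  have h3 : vs ζ s (xr ζ (2 * N + 1) r) * gg (qd ζ) N (xr ζ (2 * N + 1) r) =
      ff (qd ζ) s (xr ζ (2 * N + 1) r) * hh (qd ζ) N s (xr ζ (2 * N + 1) r) := by
    unfold vs
    rw [h2]
    linear_combination (ff (qd ζ) s (xr ζ (2 * N + 1) r) * hh (qd ζ) N s (xr ζ (2 * N + 1) r)) * h1
  rw [mul_assoc, ← mul_pow, h3, mul_pow, mul_assoc ((qd ζ) ^ s * _)]

/-- value of one block -/
theorem rep_block {N : ℕ} (hN : Even N) (hζ : IsPrimitiveRoot ζ (2 * N + 1)) (r : ℕ) :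
    Rep ζ (∑ s ∈ Finset.range (2 * N + 1), a (r * (2 * N + 1) + s))
      (algebraMap ℚ D (c r) * ((1 + qd ζ)⁻¹ * Fv ζ N 1)) := by
  obtain ⟨d, hd, hd2⟩ := rep_U hζ r
  have hx : Rep ζ ((RatFunc.X : RatFunc ℚ) ^ (4 * (r * (2 * N + 1)))) (xr ζ (2 * N + 1) r) := Rep.X.pow _
  have hone : Rep ζ (1 + (RatFunc.X : RatFunc ℚ)) (1 + qd ζ) := Rep.one.add Rep.X
  have hterm : ∀ s ∈ Finset.range (2 * N + 1), Rep ζ (a (r * (2 * N + 1) + s))
      ((qd ζ) ^ (r * (2 * N + 1) + s) * ((1 + (qd ζ) ^ (4 * (r * (2 * N + 1) + s) + 1)) * (1 + qd ζ)⁻¹) *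
        (d * vs ζ s (xr ζ (2 * N + 1) r)) ^ 3) := by
    intro s hs
    have hs' := Finset.mem_range.mp hs
    have ha : a (r * (2 * N + 1) + s) = RatFunc.X ^ (r * (2 * N + 1) + s) *
        ((1 + RatFunc.X ^ (4 * (r * (2 * N + 1) + s) + 1)) / (1 + RatFunc.X)) *
        (U (r * (2 * N + 1)) * V (r * (2 * N + 1)) s) ^ 3 := by
      rw [← U_add]
      unfold a U
      rw [Finset.prod_pow]
    rw [ha]
    have hV : Rep ζ (V (r * (2 * N + 1)) s) (vs ζ s (xr ζ (2 * N + 1) r)) := by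
      unfold V vs
      exact (hx.ff s).div (hx.gg s) (fst_gg_ne hζ (fst_xr hζ r) s (by omega))
    exact ((Rep.X.pow _).mul ((Rep.one.add (Rep.X.pow _)).div hone (fst_one_add_ne hζ))).mul ((hd.mul hV).pow 3)
  have hsum := Rep.sum _ _ _ hterm
  have hval : ∑ s ∈ Finset.range (2 * N + 1), ((qd ζ) ^ (r * (2 * N + 1) + s) *
      ((1 + (qd ζ) ^ (4 * (r * (2 * N + 1) + s) + 1)) * (1 + qd ζ)⁻¹) *
        (d * vs ζ s (xr ζ (2 * N + 1) r)) ^ 3) =
      (qd ζ) ^ (r * (2 * N + 1)) * (1 + qd ζ)⁻¹ * d ^ 3 * Fv ζ N (xr ζ (2 * N + 1) r) := by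
    unfold Fv
    rw [Finset.mul_sum]
    apply Finset.sum_congr rfl
    intro s _
    have : (qd ζ) ^ (4 * (r * (2 * N + 1) + s) + 1) = xr ζ (2 * N + 1) r * (qd ζ) ^ (4 * s + 1) := by
      unfold xr
      rw [← pow_add]
      congr 1
      ring
    rw [this]
    ring
  rw [hval] at hsum
  -- cancel a unit
  have hu : ((qd ζ) ^ (r * (2 * N + 1) ^ 2) * gg (qd ζ) N 1).fst ≠ 0 := by
    rw [fst_mul, fst_qd_pow]
    apply mul_ne_zero (pow_ne_zero _ (hζ.ne_zero (by omega)))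
    exact fst_gg_ne hζ (by simp) N (by omega)
  have hinv := TrivSqZeroExt.mul_inv_cancel hu
  have hF := Fv_mul hζ r
  have hF0 := Fv_mul hζ 0
  have hx0 : xr ζ (2 * N + 1) 0 = 1 := by simp [xr]
  rw [hx0] at hF0
  have hC := CC_lin (qd ζ) (ee (2 * N + 1)) N r hN (ee_sq _) (qd_pow_n hζ)
  rw [← xr_eq hζ] at hC
  have hq1 : (qd ζ) ^ (r * (2 * N + 1)) = 1 + r * ee (2 * N + 1) := by
    rw [mul_comm, pow_mul, qd_pow_n hζ, one_add_pow (ee_sq _)]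
  have hq2 : ((qd ζ) ^ (r * (2 * N + 1) ^ 2)) ^ 3 = 1 + 3 * r * (2 * N + 1) * ee (2 * N + 1) := by
    have e : (r * (2 * N + 1) ^ 2) = (2 * N + 1) * (r * (2 * N + 1)) := by ring
    rw [← pow_mul, e, mul_assoc, pow_mul, qd_pow_n hζ, one_add_pow (ee_sq _)]
    push_cast
    ring
  have hcube : algebraMap ℚ D (c r) = (algebraMap ℚ D (Cr r)) ^ 3 := by
    rw [← Cr_cube, map_pow]
  have hfinal : (qd ζ) ^ (r * (2 * N + 1)) * (1 + qd ζ)⁻¹ * d ^ 3 * Fv ζ N (xr ζ (2 * N + 1) r) =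
      algebraMap ℚ D (c r) * ((1 + qd ζ)⁻¹ * Fv ζ N 1) := by
    have hmain : ((qd ζ) ^ (r * (2 * N + 1)) * (1 + qd ζ)⁻¹ * d ^ 3 * Fv ζ N (xr ζ (2 * N + 1) r)) *
        ((qd ζ) ^ (r * (2 * N + 1) ^ 2) * gg (qd ζ) N 1) ^ 3 =
        (algebraMap ℚ D (c r) * ((1 + qd ζ)⁻¹ * Fv ζ N 1)) *
        ((qd ζ) ^ (r * (2 * N + 1) ^ 2) * gg (qd ζ) N 1) ^ 3 := by
      have s1 : (d * qd ζ ^ (r * (2 * N + 1) ^ 2) * gg (qd ζ) N 1) ^ 3 =
          ((algebraMap ℚ D) (Cr r) * gg (qd ζ) N (xr ζ (2 * N + 1) r)) ^ 3 := by rw [hd2]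
      calc ((qd ζ) ^ (r * (2 * N + 1)) * (1 + qd ζ)⁻¹ * d ^ 3 * Fv ζ N (xr ζ (2 * N + 1) r)) *
        ((qd ζ) ^ (r * (2 * N + 1) ^ 2) * gg (qd ζ) N 1) ^ 3
          = (qd ζ) ^ (r * (2 * N + 1)) * (1 + qd ζ)⁻¹ * (d * qd ζ ^ (r * (2 * N + 1) ^ 2) * gg (qd ζ) N 1) ^ 3 *
            Fv ζ N (xr ζ (2 * N + 1) r) := by ring
        _ = (qd ζ) ^ (r * (2 * N + 1)) * (1 + qd ζ)⁻¹ * (algebraMap ℚ D (Cr r)) ^ 3 *
            (Fv ζ N (xr ζ (2 * N + 1) r) * (gg (qd ζ) N (xr ζ (2 * N + 1) r)) ^ 3) := by rw [s1]; ring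
        _ = (1 + r * ee (2 * N + 1)) * (1 + qd ζ)⁻¹ * (algebraMap ℚ D (Cr r)) ^ 3 *
            ((1 + 2 * r * (3 * N + 1) * ee (2 * N + 1)) * CC (qd ζ) N 1) := by rw [hF, hC, hq1]
        _ = (algebraMap ℚ D (Cr r)) ^ 3 * (1 + qd ζ)⁻¹ * (1 + 3 * r * (2 * N + 1) * ee (2 * N + 1)) * CC (qd ζ) N 1 := by
            linear_combination ((1 + qd ζ)⁻¹ * (algebraMap ℚ D (Cr r)) ^ 3 * CC (qd ζ) N 1 * r * (2 * r * (3 * N + 1))) * ee_sq (2 * N + 1)
        _ = (algebraMap ℚ D (c r) * ((1 + qd ζ)⁻¹ * Fv ζ N 1)) *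
        ((qd ζ) ^ (r * (2 * N + 1) ^ 2) * gg (qd ζ) N 1) ^ 3 := by
            rw [hcube, ← hq2, ← hF0]; ring
    have hinv3 : ((qd ζ) ^ (r * (2 * N + 1) ^ 2) * gg (qd ζ) N 1) ^ 3 *
        (((qd ζ) ^ (r * (2 * N + 1) ^ 2) * gg (qd ζ) N 1)⁻¹) ^ 3 = 1 := by
      rw [← mul_pow, hinv, one_pow]
    calc (qd ζ) ^ (r * (2 * N + 1)) * (1 + qd ζ)⁻¹ * d ^ 3 * Fv ζ N (xr ζ (2 * N + 1) r)
        = ((qd ζ) ^ (r * (2 * N + 1)) * (1 + qd ζ)⁻¹ * d ^ 3 * Fv ζ N (xr ζ (2 * N + 1) r)) *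
          (((qd ζ) ^ (r * (2 * N + 1) ^ 2) * gg (qd ζ) N 1) ^ 3 *
        (((qd ζ) ^ (r * (2 * N + 1) ^ 2) * gg (qd ζ) N 1)⁻¹) ^ 3) := by rw [hinv3, mul_one]
      _ = (((qd ζ) ^ (r * (2 * N + 1)) * (1 + qd ζ)⁻¹ * d ^ 3 * Fv ζ N (xr ζ (2 * N + 1) r)) *
          ((qd ζ) ^ (r * (2 * N + 1) ^ 2) * gg (qd ζ) N 1) ^ 3) *
        (((qd ζ) ^ (r * (2 * N + 1) ^ 2) * gg (qd ζ) N 1)⁻¹) ^ 3 := by ring
      _ = (algebraMap ℚ D (c r) * ((1 + qd ζ)⁻¹ * Fv ζ N 1)) *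
        (((qd ζ) ^ (r * (2 * N + 1) ^ 2) * gg (qd ζ) N 1) ^ 3 *
        (((qd ζ) ^ (r * (2 * N + 1) ^ 2) * gg (qd ζ) N 1)⁻¹) ^ 3) := by rw [hmain]; ring
      _ = algebraMap ℚ D (c r) * ((1 + qd ζ)⁻¹ * Fv ζ N 1) := by rw [hinv3, mul_one]
  rwa [hfinal] at hsum


/-- value of `R_n` -/
theorem rep_R {N : ℕ} (hζ : IsPrimitiveRoot ζ (2 * N + 1)) :
    Rep ζ (R (2 * N + 1)) ((1 + qd ζ)⁻¹ * Fv ζ N 1) := by
  rw [← sum_tt_eq_R]
  have hone : Rep ζ (1 + (RatFunc.X : RatFunc ℚ)) (1 + qd ζ) := Rep.one.add Rep.X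
  have hx0 : xr ζ (2 * N + 1) 0 = 1 := by simp [xr]
  have hterm : ∀ k ∈ Finset.range (N + 1), Rep ζ
      (tt (RatFunc.X : RatFunc ℚ) (RatFunc.X ^ 4) (RatFunc.X ^ (4 * N + 4)) N k)
      ((1 + qd ζ)⁻¹ * ((qd ζ) ^ k * (1 + 1 * (qd ζ) ^ (4 * k + 1)) * (vs ζ k 1) ^ 3)) := by
    intro k hk
    have hk' : k ≤ N := by
      have := Finset.mem_range.mp hk
      omega
    rw [tt_eq]
    have ha : a k = RatFunc.X ^ k * ((1 + RatFunc.X ^ (4 * k + 1)) / (1 + RatFunc.X)) * (V 0 k) ^ 3 := by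
      have h0 : V 0 k = U k := by
        have := U_add 0 k
        rw [zero_add] at this
        rw [this]
        simp [U]
      rw [h0]
      unfold a U
      rw [Finset.prod_pow]
    have hV : Rep ζ (V 0 k) (vs ζ k 1) := by
      unfold V vs
      have h1 : Rep ζ ((RatFunc.X : RatFunc ℚ) ^ (4 * 0)) 1 := by
        simpa using Rep.one
      exact (h1.ff k).div (h1.gg k) (fst_gg_ne hζ (by simp) k (by omega))
    have hprod : Rep ζ (∏ j ∈ Finset.range k, (((1 - RatFunc.X ^ (4 * N + 2) * RatFunc.X ^ (4 * j + 2)) *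
        (RatFunc.X ^ (4 * N + 2) - RatFunc.X ^ (4 * j + 2)) * (1 - RatFunc.X ^ (4 * j + 4)) ^ 2) /
        ((1 - RatFunc.X ^ (4 * N + 2) * RatFunc.X ^ (4 * j + 4)) *
        (RatFunc.X ^ (4 * N + 2) - RatFunc.X ^ (4 * j + 4)) * (1 - RatFunc.X ^ (4 * j + 2)) ^ 2)))
        (∏ j ∈ Finset.range k, (1 : D)) := by
      apply Rep.prod
      intro j hj
      have hj' := Finset.mem_range.mp hj
      have hA : (qd ζ) ^ (4 * N + 2) = 1 + 2 * ee (2 * N + 1) := by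
        have e : 4 * N + 2 = (2 * N + 1) * 2 := by ring
        rw [e, pow_mul, qd_pow_n hζ]
        linear_combination ee_sq (2 * N + 1)
      have hnum : Rep ζ ((1 - (RatFunc.X : RatFunc ℚ) ^ (4 * N + 2) * RatFunc.X ^ (4 * j + 2)) *
        (RatFunc.X ^ (4 * N + 2) - RatFunc.X ^ (4 * j + 2)) * (1 - RatFunc.X ^ (4 * j + 4)) ^ 2)
        ((1 - (qd ζ) ^ (4 * N + 2) * (qd ζ) ^ (4 * j + 2)) *
        ((qd ζ) ^ (4 * N + 2) - (qd ζ) ^ (4 * j + 2)) * (1 - (qd ζ) ^ (4 * j + 4)) ^ 2) :=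
        ((Rep.one.sub ((Rep.X.pow _).mul (Rep.X.pow _))).mul ((Rep.X.pow _).sub (Rep.X.pow _))).mul
          ((Rep.one.sub (Rep.X.pow _)).pow 2)
      have hden : Rep ζ ((1 - (RatFunc.X : RatFunc ℚ) ^ (4 * N + 2) * RatFunc.X ^ (4 * j + 4)) *
        (RatFunc.X ^ (4 * N + 2) - RatFunc.X ^ (4 * j + 4)) * (1 - RatFunc.X ^ (4 * j + 2)) ^ 2)
        ((1 - (qd ζ) ^ (4 * N + 2) * (qd ζ) ^ (4 * j + 4)) *
        ((qd ζ) ^ (4 * N + 2) - (qd ζ) ^ (4 * j + 4)) * (1 - (qd ζ) ^ (4 * j + 2)) ^ 2) :=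
        ((Rep.one.sub ((Rep.X.pow _).mul (Rep.X.pow _))).mul ((Rep.X.pow _).sub (Rep.X.pow _))).mul
          ((Rep.one.sub (Rep.X.pow _)).pow 2)
      have h1 : ((1 : D) - 1 * (qd ζ) ^ (4 * j + 4)).fst ≠ 0 := by
        apply fst_one_sub_ne hζ (by simp)
        have := not_dvd_aux (N := N) (k := j + 1) (by omega) (by omega)
        have e : 4 * (j + 1) = 4 * j + 4 := by ring
        rwa [e] at this
      have h2 : ((1 : D) - 1 * (qd ζ) ^ (4 * j + 2)).fst ≠ 0 := by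
        apply fst_one_sub_ne hζ (by simp)
        exact not_dvd_aux2 (by omega)
      rw [one_mul, fst_sub, fst_one, fst_qd_pow] at h1 h2
      have hAf : ((qd ζ) ^ (4 * N + 2)).fst = 1 := by
        rw [hA]; simp [fst_ee]
      refine Rep.mk_div hnum hden ?_ ?_
      · have hsq : ((1 - (qd ζ) ^ (4 * j + 2)) ^ 2).fst = (1 - ζ ^ (4 * j + 2)) ^ 2 := by
          rw [fst_pow, fst_sub, fst_one, fst_qd_pow]
        rw [fst_mul, fst_mul, fst_sub, fst_sub, fst_one, fst_mul, hAf, hsq, fst_qd_pow, one_mul]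
        exact mul_ne_zero (mul_ne_zero h1 h1) (pow_ne_zero _ h2)
      · rw [hA]
        generalize (qd ζ) ^ (4 * j + 4) = y'
        generalize (qd ζ) ^ (4 * j + 2) = y
        linear_combination (4 * y * (1 - y') ^ 2 - 4 * y' * (1 - y) ^ 2) * ee_sq (2 * N + 1)
    rw [Finset.prod_const_one] at hprod
    have hres := (((Rep.X.pow k).mul ((Rep.one.add (Rep.X.pow (4 * k + 1))).div hone (fst_one_add_ne hζ))).mul
      (hV.pow 3)).mul hprod
    rw [← ha] at hres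
    have hv : (qd ζ) ^ k * ((1 + (qd ζ) ^ (4 * k + 1)) * (1 + qd ζ)⁻¹) * (vs ζ k 1) ^ 3 * 1 =
      ((1 + qd ζ)⁻¹ * ((qd ζ) ^ k * (1 + 1 * (qd ζ) ^ (4 * k + 1)) * (vs ζ k 1) ^ 3)) := by ring
    rwa [hv] at hres
  have hsum := Rep.sum _ _ _ hterm
  have hFv : ∑ k ∈ Finset.range (N + 1), ((1 + qd ζ)⁻¹ * ((qd ζ) ^ k * (1 + 1 * (qd ζ) ^ (4 * k + 1)) * (vs ζ k 1) ^ 3)) =
      (1 + qd ζ)⁻¹ * Fv ζ N 1 := by
    unfold Fv
    have e : 2 * N + 1 = (N + 1) + N := by ring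
    rw [← Finset.mul_sum, e, Finset.sum_range_add _ (N + 1) N]
    have hz : ∑ s ∈ Finset.range N, (qd ζ) ^ (N + 1 + s) * (1 + 1 * (qd ζ) ^ (4 * (N + 1 + s) + 1)) *
        (vs ζ (N + 1 + s) 1) ^ 3 = 0 := by
      apply Finset.sum_eq_zero
      intro s _
      have := vs_cube_zero hζ 0 (N + 1 + s) (by omega)
      rw [hx0] at this
      rw [this, mul_zero]
    rw [hz, add_zero]
  rwa [hFv] at hsum

end zeta

/-- **Main theorem** (the whole of Q1): for all integers `m ≥ 1` and `n > 1` with `n ≡ 1 (mod 4)`,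
`∑_{k=0}^{mn-1} a_k(q) ≡ R_n(q) ∑_{k=0}^{m-1} c_k  (mod Φ_n(q)^2)`. -/
theorem main_congruence (m n : ℕ) (_hm : 1 ≤ m) (hn : 1 < n) (h4 : n ≡ 1 [MOD 4]) :
    CongrPhiSq n (∑ k ∈ Finset.range (m * n), a k)
      (R n * ∑ k ∈ Finset.range m, algebraMap ℚ (RatFunc ℚ) (c k)) := by
  obtain ⟨N, hN, rfl⟩ : ∃ N, Even N ∧ n = 2 * N + 1 := by
    have h5 : n % 4 = 1 := h4
    refine ⟨2 * (n / 4), even_two_mul _, ?_⟩
    omega
  have hζ := Complex.isPrimitiveRoot_exp (2 * N + 1) (by omega)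
  generalize Complex.exp (2 * Real.pi * Complex.I / ((2 * N + 1 : ℕ) : ℂ)) = ζ at hζ
  have hsplit : ∀ m : ℕ, ∑ k ∈ Finset.range (m * (2 * N + 1)), a k =
      ∑ r ∈ Finset.range m, ∑ s ∈ Finset.range (2 * N + 1), a (r * (2 * N + 1) + s) := by
    intro m
    induction m with
    | zero => simp
    | succ m ih =>
      rw [Finset.sum_range_succ, ← ih, add_mul, one_mul, Finset.sum_range_add]
  rw [hsplit]
  have hl : Rep ζ (∑ r ∈ Finset.range m, ∑ s ∈ Finset.range (2 * N + 1), a (r * (2 * N + 1) + s))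
      (∑ r ∈ Finset.range m, algebraMap ℚ D (c r) * ((1 + qd ζ)⁻¹ * Fv ζ N 1)) :=
    Rep.sum _ _ _ (fun r _ => rep_block hN hζ r)
  have hr : Rep ζ (R (2 * N + 1) * ∑ k ∈ Finset.range m, algebraMap ℚ (RatFunc ℚ) (c k))
      (((1 + qd ζ)⁻¹ * Fv ζ N 1) * ∑ k ∈ Finset.range m, algebraMap ℚ D (c k)) :=
    (rep_R hζ).mul (Rep.sum _ _ _ (fun k _ => Rep.const (c k)))
  have hv : (∑ r ∈ Finset.range m, algebraMap ℚ D (c r) * ((1 + qd ζ)⁻¹ * Fv ζ N 1)) =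
      (((1 + qd ζ)⁻¹ * Fv ζ N 1) * ∑ k ∈ Finset.range m, algebraMap ℚ D (c k)) := by
    rw [← Finset.sum_mul, mul_comm]
  rw [hv] at hl
  exact hl.congr (by omega) hζ hr


end Pool.Agent.H25.LiuQ
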